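import Pool.Agent.Q325.SI.Stmts

set_option autoImplicit false

namespace Pool.Agent.NPC.Q325SI

open Pool.Agent.NPC.Q325TwoPM

theorem sat_of_contains (hAdj : TaskAdj) (hBwd : TaskBwdG) (hSz : TaskSizes) (hBox : TaskBox)
    (hNum : TaskNumB) (φ : F3)
    (h : Contains (red φ).1 (red φ).2) : SAT3 φ := by
  obtain ⟨s1, s2, s3⟩ := hSz φ
  obtain ⟨c, d, h1, h2⟩ := hBwd hAdj (BB φ) (4 * M φ) (2 * M φ) (4 * M φ) (hc φ) (hd φ) (pa φ)
    (pb φ) (st φ) (fun j hj => (s1 j hj).2.2) (fun j hj => (s2 j hj).2.2)
    (fun j hj => (s3 j hj).2) (fun j hj => ⟨by have := (s2 j hj).1; omega,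
      by have := (s2 j hj).2.1; omega⟩) (fun j hj => (s3 j hj).1) (by omega) h
  rw [sat_iff]
  refine hNum φ c d (fun i hi => ?_) h2
  obtain ⟨h3, h4, h5⟩ := h1 i hi
  exact ⟨h3, h4, hBox φ i (c i) (d i) hi h3 h4 h5⟩

theorem ta_ge (φ : F3) (i : ℕ) : pa φ i ≤ ta φ i := by
  unfold pa ta
  split_ifs
  · unfold lo hi
    omega
  · omega

theorem fb_ge (φ : F3) (i : ℕ) : pb φ i ≤ fb φ i := by
  unfold pb fb
  split_ifs
  · unfold lo hi
    omega
  · omega

theorem contains_of_sat (hAdj : TaskAdj) (hFwd : TaskFwdG) (hSz : TaskSizes) (hHall : TaskHall)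
    (hNum : TaskNumF) (φ : F3) (h : SAT3 φ) : Contains (red φ).1 (red φ).2 := by
  obtain ⟨s1, s2, s3⟩ := hSz φ
  rw [sat_iff] at h
  obtain ⟨w, hw⟩ := h
  obtain ⟨g, hg1, hg2⟩ := hHall (4 * M φ) (4 * M φ) (st φ) (cs φ w) (hNum φ w hw)
  have hlt : ∀ s < 4 * M φ, g s < 4 * M φ := fun s hs => (hg1 s hs).1
  refine hFwd hAdj (BB φ) (4 * M φ) (2 * M φ) (4 * M φ) (hc φ) (hd φ) (pa φ) (pb φ) (st φ)
    (fun i => if sel φ w i = true then i else i + 2 * M φ)
    (fun s => if sel φ w (g s % (2 * M φ)) = true then g s % (2 * M φ) + 2 * M φ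
      else g s % (2 * M φ))
    (fun s => decide (g s < 2 * M φ)) (fun j hj => (s1 j hj).2.2) (fun j hj => (s2 j hj).2.2)
    (fun j hj => (s3 j hj).2) ?_ ?_ ?_ ?_
  · intro i hi
    have h1 := ta_ge φ i
    have h2 := fb_ge φ i
    by_cases hs : sel φ w i = true
    · simp only [hs, if_true]
      refine ⟨by omega, ?_, ?_⟩
      · unfold hc
        rw [if_pos hi]
        exact h1
      · unfold hd
        rw [if_pos hi]
    · simp only [hs, if_false]
      refine ⟨by simp; omega, ?_, ?_⟩
      · unfold hc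
        simp
      · unfold hd
        simp only [Bool.false_eq_true, if_false]
        rw [if_neg (by omega), Nat.add_sub_cancel]
        exact h2
  · intro i hi j hj hij
    split_ifs at hij <;> omega
  · intro s hs
    obtain ⟨h1, h2⟩ := hg1 s hs
    have hM : 0 < 2 * M φ := by omega
    have hmod : g s % (2 * M φ) < 2 * M φ := Nat.mod_lt _ hM
    by_cases hc1 : g s < 2 * M φ
    · have e1 : g s % (2 * M φ) = g s := Nat.mod_eq_of_lt hc1
      unfold cs at h2
      rw [if_pos hc1] at h2
      simp only [e1, decide_eq_true_eq, hc1, if_true]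
      by_cases hs' : sel φ w (g s) = true
      · simp only [hs', if_true] at h2 ⊢
        refine ⟨by omega, ?_, ?_⟩
        · unfold hc
          rw [if_neg (by omega), Nat.add_sub_cancel]
          exact h2
        · intro i hi
          split_ifs with h3
          · omega
          · intro h4
            have : i = g s := by omega
            rw [this] at h3
            exact h3 hs'
      · simp only [hs', if_false, Bool.false_eq_true] at h2 ⊢
        refine ⟨by omega, ?_, ?_⟩
        · unfold hc
          rw [if_pos hc1]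
          exact h2
        · intro i hi
          split_ifs with h3
          · intro h4
            rw [h4] at h3
            exact hs' h3
          · omega
    · have e1 : g s % (2 * M φ) = g s - 2 * M φ := by
        rw [Nat.mod_eq_sub_mod (by omega)]
        exact Nat.mod_eq_of_lt (by omega)
      unfold cs at h2
      rw [if_neg hc1] at h2
      simp only [e1, decide_eq_true_eq, hc1, if_false]
      by_cases hs' : sel φ w (g s - 2 * M φ) = true
      · simp only [hs', if_true] at h2 ⊢
        refine ⟨by omega, ?_, ?_⟩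
        · unfold hd
          rw [if_neg (by omega), Nat.add_sub_cancel]
          exact h2
        · intro i hi
          split_ifs with h3
          · omega
          · intro h4
            have : i = g s - 2 * M φ := by omega
            rw [this] at h3
            exact h3 hs'
      · simp only [hs', if_false, Bool.false_eq_true] at h2 ⊢
        refine ⟨by omega, ?_, ?_⟩
        · unfold hd
          rw [if_pos (by omega)]
          exact h2
        · intro i hi
          split_ifs with h3
          · intro h4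
            rw [h4] at h3
            exact hs' h3
          · omega
  · intro s hs s' hs' h1 h2
    have hM : 0 < 2 * M φ := by omega
    have l1 := hlt s hs
    have l2 := hlt s' hs'
    refine hg2 s hs s' hs' ?_
    have h3 : (g s < 2 * M φ) ↔ (g s' < 2 * M φ) := by simpa using h2
    have m1 : g s % (2 * M φ) < 2 * M φ := Nat.mod_lt _ hM
    have m2 : g s' % (2 * M φ) < 2 * M φ := Nat.mod_lt _ hM
    have h4 : g s % (2 * M φ) = g s' % (2 * M φ) := by
      split_ifs at h1 <;> omega
    by_cases hc1 : g s < 2 * M φ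
    · rw [Nat.mod_eq_of_lt hc1, Nat.mod_eq_of_lt (h3.1 hc1)] at h4
      exact h4
    · have hc2 : ¬ g s' < 2 * M φ := fun h => hc1 (h3.2 h)
      rw [Nat.mod_eq_sub_mod (by omega), Nat.mod_eq_of_lt (by omega : g s - 2 * M φ < 2 * M φ),
        Nat.mod_eq_sub_mod (by omega), Nat.mod_eq_of_lt (by omega : g s' - 2 * M φ < 2 * M φ)]
        at h4
      omega

theorem red_iff (hAdj : TaskAdj) (hBwd : TaskBwdG) (hFwd : TaskFwdG) (hSz : TaskSizes)
    (hBox : TaskBox) (hNumB : TaskNumB) (hNumF : TaskNumF) (hHall : TaskHall) (hP5 : TaskP5)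
    (φ : F3) : SAT3 φ ↔ SI5 (red φ) := by
  obtain ⟨s1, s2, s3⟩ := hSz φ
  constructor
  · intro h
    refine ⟨hP5 _ _ _ _ _ (fun j hj => (s1 j hj).2.2) (fun j _ h => by simp at h),
      hP5 _ _ _ _ _ (fun j hj => ?_) (fun j hj h => ?_),
      contains_of_sat hAdj hFwd hSz hHall hNumF φ h⟩
    · by_cases h1 : j < 2 * M φ
      · simp only [h1, if_true]
        exact (s2 j h1).2.2
      · simp only [h1, if_false]
        have := (s3 (j - 2 * M φ) (by omega)).2
        omega
    · have h1 : ¬ j < 2 * M φ := by simpa using h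
      simp only [h1, if_false]
  · rintro ⟨-, -, h⟩
    exact sat_of_contains hAdj hBwd hSz hBox hNumB φ h

theorem final (hAdj : TaskAdj) (hBwd : TaskBwdG) (hFwd : TaskFwdG) (hSz : TaskSizes)
    (hBox : TaskBox) (hNumB : TaskNumB) (hNumF : TaskNumF) (hHall : TaskHall) (hP5 : TaskP5)
    (hPoly : TaskPoly) (hPP : TaskPolyP5) (hMem : TaskMem) : InNPP SI5 ∧ NPHardP SI5 :=
  ⟨hMem hPP, (hardI_SAT3.trans hPoly
    (red_iff hAdj hBwd hFwd hSz hBox hNumB hNumF hHall hP5)).toNPHardP⟩

end Pool.Agent.NPC.Q325SI
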