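import Pool.Agent.Q325.Match
import Pool.Agent.NPC.Dec

/-!
# Blueprint for MP_143e72_lc: Subgraph Isomorphism on `P_5`-subgraph-free graphs is NP-complete

Prove `theorem TaskX_proof : TaskX` in `Pool/Agent/Q325/SI/TaskX.lean`, namespace
`Pool.Agent.NPC.Q325SI`, `import Pool.Agent.Q325.SI.Stmts`; helper lemmas private.
Host: disjoint double stars; pattern: disjoint double stars and stars.
-/

set_option autoImplicit false

namespace Pool.Agent.NPC.Q325SI

open Pool.Agent.NPC.Q325TwoPM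

/-- graphs: the list of the vertices and the list of the edges -/
abbrev Gr : Type := List ℕ × List (ℕ × ℕ)

def Adj (G : Gr) (u v : ℕ) : Prop := u ∈ G.1 ∧ v ∈ G.1 ∧ u ≠ v ∧ ((u, v) ∈ G.2 ∨ (v, u) ∈ G.2)

/-- `G` contains `H` as a subgraph -/
def Contains (G H : Gr) : Prop := ∃ φ : ℕ → ℕ, (∀ u ∈ H.1, φ u ∈ G.1) ∧
  (∀ u ∈ H.1, ∀ v ∈ H.1, φ u = φ v → u = v) ∧ ∀ u v, Adj H u v → Adj G (φ u) (φ v)

/-- no path with five vertices -/
def P5Free (G : Gr) : Prop := ¬ ∃ a b c d e : ℕ, [a, b, c, d, e].Nodup ∧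
  Adj G a b ∧ Adj G b c ∧ Adj G c d ∧ Adj G d e

/-- Subgraph Isomorphism on `P_5`-subgraph-free graphs -/
def SI5 (p : Gr × Gr) : Prop := P5Free p.1 ∧ P5Free p.2 ∧ Contains p.1 p.2

/-! ### Unions of double stars (`t = true`) and stars (`t = false`, `d = 0`) -/

def compV (B j : ℕ) (t : Bool) (c d : ℕ) : List ℕ :=
  B * j :: ((if t = true then [B * j + 1] else []) ++
    (List.range (c + d)).map fun k => B * j + 2 + k)

def compE (B j : ℕ) (t : Bool) (c d : ℕ) : List (ℕ × ℕ) :=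
  (if t = true then [(B * j, B * j + 1)] else []) ++
    ((List.range c).map (fun k => (B * j, B * j + 2 + k)) ++
      (List.range d).map fun k => (B * j + 1, B * j + 2 + c + k))

def gr (B n : ℕ) (t : ℕ → Bool) (c d : ℕ → ℕ) : Gr :=
  ((List.range n).flatMap fun j => compV B j (t j) (c j) (d j),
    (List.range n).flatMap fun j => compE B j (t j) (c j) (d j))

/-- number of the `i < n` with `τ ≤ c i` -/
def cnt (n : ℕ) (c : ℕ → ℕ) (τ : ℕ) : ℕ := ((Finset.range n).filter fun i => τ ≤ c i).card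

/-- the host: `n` double stars -/
def hostG (B n : ℕ) (hc hd : ℕ → ℕ) : Gr := gr B n (fun _ => true) hc hd

/-- the pattern: `m` double stars and `l` stars -/
def patG (B m l : ℕ) (pc pd st : ℕ → ℕ) : Gr :=
  gr B (m + l) (fun j => decide (j < m)) (fun j => if j < m then pc j else st (j - m))
    (fun j => if j < m then pd j else 0)

/-- unions of double stars and stars contain no path with five vertices -/
def TaskP5 : Prop := ∀ (B n : ℕ) (t : ℕ → Bool) (c d : ℕ → ℕ), (∀ j < n, c j + d j + 2 ≤ B) →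
  (∀ j < n, t j = false → d j = 0) → P5Free (gr B n t c d)

/-- description of adjacency: the centre `B j` and the centre `B j + 1` -/
def TaskAdj : Prop := ∀ (B n : ℕ) (t : ℕ → Bool) (c d : ℕ → ℕ), (∀ j < n, c j + d j + 2 ≤ B) →
  (∀ j < n, t j = false → d j = 0) → ∀ u v : ℕ, Adj (gr B n t c d) u v ↔
  ∃ j < n, (t j = true ∧ ((u = B * j ∧ v = B * j + 1) ∨ (v = B * j ∧ u = B * j + 1))) ∨
    (∃ k < c j, (u = B * j ∧ v = B * j + 2 + k) ∨ (v = B * j ∧ u = B * j + 2 + k)) ∨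
    (∃ k < d j, (u = B * j + 1 ∧ v = B * j + 2 + c j + k) ∨
      (v = B * j + 1 ∧ u = B * j + 2 + c j + k))

/-- hint: centres of the pattern have degree at least two, so they go to centres of the host (the
centres of a double star to the two centres of the same double star); as `l + 2 m = 2 n`, all centres
of the host are images of centres, so the leaves of a star go to leaves; then count the centres with
at least `τ` leaves -/
def TaskBwdG : Prop := TaskAdj → ∀ (B n m l : ℕ) (hc hd pc pd st : ℕ → ℕ),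
  (∀ j < n, hc j + hd j + 2 ≤ B) → (∀ j < m, pc j + pd j + 2 ≤ B) → (∀ j < l, st j + 2 ≤ B) →
  (∀ j < m, 1 ≤ pc j ∧ 1 ≤ pd j) → (∀ j < l, 2 ≤ st j) → l + 2 * m = 2 * n →
  Contains (hostG B n hc hd) (patG B m l pc pd st) →
  ∃ c d : ℕ → ℕ, (∀ i < m, pc i ≤ c i ∧ pd i ≤ d i ∧
      ∃ j < n, (c i = hc j ∧ d i = hd j) ∨ (c i = hd j ∧ d i = hc j)) ∧
    ∀ τ, cnt m c τ + cnt m d τ + cnt l st τ ≤ cnt n hc τ + cnt n hd τ

/-- pattern double star `i` goes to the host `f i`; star `s` to the side `o s` of the host `g s` -/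
def TaskFwdG : Prop := TaskAdj → ∀ (B n m l : ℕ) (hc hd pc pd st f g : ℕ → ℕ) (o : ℕ → Bool),
  (∀ j < n, hc j + hd j + 2 ≤ B) → (∀ j < m, pc j + pd j + 2 ≤ B) → (∀ j < l, st j + 2 ≤ B) →
  (∀ i < m, f i < n ∧ pc i ≤ hc (f i) ∧ pd i ≤ hd (f i)) →
  (∀ i < m, ∀ j < m, f i = f j → i = j) →
  (∀ s < l, g s < n ∧ (st s ≤ if o s = true then hc (g s) else hd (g s)) ∧
    ∀ i < m, f i ≠ g s) →
  (∀ s < l, ∀ s' < l, g s = g s' → o s = o s' → s = s') →
  Contains (hostG B n hc hd) (patG B m l pc pd st)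

/-- greedy matching (or Hall's theorem) -/
def TaskHall : Prop := ∀ (l n : ℕ) (st cs : ℕ → ℕ), (∀ τ, cnt l st τ ≤ cnt n cs τ) →
  ∃ g : ℕ → ℕ, (∀ s < l, g s < n ∧ st s ≤ cs (g s)) ∧ ∀ s < l, ∀ s' < l, g s = g s' → s = s'

/-! ### The numbers -/

/-- the number of the occurrences of literals -/
def M (φ : F3) : ℕ := 3 * φ.length

/-- the ends of the region `ρ` -/
def lo (φ : F3) (ρ : ℕ) : ℕ := ρ * (2 * M φ + 4) + 2
def hi (φ : F3) (ρ : ℕ) : ℕ := ρ * (2 * M φ + 4) + 2 * M φ + 3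

/-- the position of the occurrence `k` (in the region of its literal) -/
def P (φ : F3) (k : ℕ) : ℕ :=
  (2 * vid φ k + if sgn φ k = true then 1 else 0) * (2 * M φ + 4) + 2 * k + 4

/-- the position of the clause `j` -/
def Q (φ : F3) (j : ℕ) : ℕ := 2 * M φ * (2 * M φ + 4) + 2 * j + 3

def pa (φ : F3) (i : ℕ) : ℕ := if i < M φ then lo φ (2 * i) else Q φ ((i - M φ) / 3) - 1
def pb (φ : F3) (i : ℕ) : ℕ := if i < M φ then lo φ (2 * i + 1) else P φ (i - M φ) - 1
def ta (φ : F3) (i : ℕ) : ℕ := if i < M φ then hi φ (2 * i) else Q φ ((i - M φ) / 3)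
def fb (φ : F3) (i : ℕ) : ℕ := if i < M φ then hi φ (2 * i + 1) else P φ (i - M φ)

def st (φ : F3) (s : ℕ) : ℕ :=
  if s < 2 * M φ then lo φ s else if s < 3 * M φ then P φ (s - 2 * M φ)
  else if (s - 3 * M φ) % 3 = 0 then Q φ ((s - 3 * M φ) / 3) else Q φ ((s - 3 * M φ) / 3) - 1

/-- the hosts `T_i = (ta i, pb i)` and `F_i = (pa i, fb i)` -/
def hc (φ : F3) (j : ℕ) : ℕ := if j < 2 * M φ then ta φ j else pa φ (j - 2 * M φ)
def hd (φ : F3) (j : ℕ) : ℕ := if j < 2 * M φ then pb φ j else fb φ (j - 2 * M φ)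

def BB (φ : F3) : ℕ := 2 * (2 * M φ * (2 * M φ + 4) + 2 * M φ + 4) + 2

/-- the reduction -/
def red (φ : F3) : Gr × Gr :=
  (hostG (BB φ) (4 * M φ) (hc φ) (hd φ), patG (BB φ) (2 * M φ) (4 * M φ) (pa φ) (pb φ) (st φ))

/-- all numbers are between `2` and the bound -/
def TaskSizes : Prop := ∀ φ : F3,
  (∀ j < 4 * M φ, 2 ≤ hc φ j ∧ 2 ≤ hd φ j ∧ hc φ j + hd φ j + 2 ≤ BB φ) ∧
  (∀ j < 2 * M φ, 2 ≤ pa φ j ∧ 2 ≤ pb φ j ∧ pa φ j + pb φ j + 2 ≤ BB φ) ∧
  (∀ j < 4 * M φ, 2 ≤ st φ j ∧ st φ j + 2 ≤ BB φ)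

/-- `T_i` is selected: the variable `i` is true, or the literal `i - M` is false -/
def sel (φ : F3) (w : ℕ → Bool) (i : ℕ) : Bool :=
  if i < M φ then w i else !(w (vid φ (i - M φ)) == sgn φ (i - M φ))

/-- the free coordinates (of `F_i` if `T_i` is selected) -/
def cs (φ : F3) (w : ℕ → Bool) (j : ℕ) : ℕ :=
  if j < 2 * M φ then (if sel φ w j = true then pa φ j else ta φ j)
  else (if sel φ w (j - 2 * M φ) = true then fb φ (j - 2 * M φ) else pb φ (j - 2 * M φ))

/-- hint: write `cnt` as a sum of indicators. Clause `j`: at least one of three literals is true, so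
at least one free coordinate is `Q j`. Regions: false literals: equal; true literals: the stars
`P k`, the free coordinates `P k - 1`, a difference only for `τ = P k`, for at most one `k`, and
then the free `hi` of this region is at least `τ`, and the star `lo` is smaller -/
def TaskNumF : Prop := ∀ (φ : F3) (w : ℕ → Bool),
  (∀ j < φ.length, ∃ s < 3, w (vid φ (3 * j + s)) = sgn φ (3 * j + s)) →
  ∀ τ, cnt (4 * M φ) (st φ) τ ≤ cnt (4 * M φ) (cs φ w) τ

/-- no host is in the box of the job `i`: so one of the two intervals of `i` is covered -/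
def TaskBox : Prop := ∀ (φ : F3) (i : ℕ) (c d : ℕ), i < 2 * M φ → pa φ i ≤ c → pb φ i ≤ d →
  (∃ j < 4 * M φ, (c = hc φ j ∧ d = hd φ j) ∨ (c = hd φ j ∧ d = hc φ j)) →
  ta φ i ≤ c ∨ fb φ i ≤ d

/-- hint: variable `x` is true iff `ta x ≤ c x`. If the clause `j` has no true literal: at `τ = Q j`
not all three of its jobs have `ta ≤ c` (else the inequality fails); so one, `k`, has
`P k ≤ d`; its literal is false, so the interval of its variable covers `τ = P k`: the inequality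
fails at `τ = P k` -/
def TaskNumB : Prop := ∀ (φ : F3) (c d : ℕ → ℕ),
  (∀ i < 2 * M φ, pa φ i ≤ c i ∧ pb φ i ≤ d i ∧ (ta φ i ≤ c i ∨ fb φ i ≤ d i)) →
  (∀ τ, cnt (2 * M φ) c τ + cnt (2 * M φ) d τ + cnt (4 * M φ) (st φ) τ ≤
    cnt (4 * M φ) (hc φ) τ + cnt (4 * M φ) (hd φ) τ) →
  ∃ w : ℕ → Bool, ∀ j < φ.length, ∃ s < 3, w (vid φ (3 * j + s)) = sgn φ (3 * j + s)

/-! ### Complexity (library `Pool.Agent.NPC`; see `Pool/Agent/Q325/MatchNP.lean`, `MsMem.lean`) -/

/-- the reduction is polynomial (the file `MatchNP.lean` treats `vid`, `sgn`) -/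
def TaskPoly : Prop := Poly red

/-- `P_5`-subgraph-freeness can be tested in polynomial time: five nested `any` over `G.1` -/
def TaskPolyP5 : Prop := ∃ f : Gr → Bool, Poly f ∧ ∀ G, f G = true ↔ P5Free G

/-- membership in NP; certificate: the list of the images of the vertices of `H` (one for each
entry of `H.1`), elements of `G.1` -/
def TaskMem : Prop := TaskPolyP5 → InNPP SI5

end Pool.Agent.NPC.Q325SI
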