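import Pool.Agent.Q325.SI.Stmts

/-!
# Adjacency in unions of double stars and stars
-/

set_option autoImplicit false

namespace Pool.Agent.NPC.Q325SI

private theorem mem_V {B n : ℕ} {t : ℕ → Bool} {c d : ℕ → ℕ} {u : ℕ} :
    u ∈ (gr B n t c d).1 ↔ ∃ j < n, u = B * j ∨ (t j = true ∧ u = B * j + 1) ∨
      ∃ k < c j + d j, u = B * j + 2 + k := by
  unfold gr compV
  simp only [List.mem_flatMap, List.mem_range, List.mem_cons, List.mem_append, List.mem_map]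
  constructor
  · rintro ⟨j, hj, h | h | ⟨k, hk, rfl⟩⟩
    · exact ⟨j, hj, Or.inl h⟩
    · split_ifs at h with ht
      · exact ⟨j, hj, Or.inr (Or.inl ⟨ht, by simpa using h⟩)⟩
      · simp at h
    · exact ⟨j, hj, Or.inr (Or.inr ⟨k, hk, rfl⟩)⟩
  · rintro ⟨j, hj, h | ⟨ht, h⟩ | ⟨k, hk, h⟩⟩
    · exact ⟨j, hj, Or.inl h⟩
    · refine ⟨j, hj, Or.inr (Or.inl ?_)⟩
      rw [if_pos ht, h]
      simp
    · exact ⟨j, hj, Or.inr (Or.inr ⟨k, hk, h.symm⟩)⟩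

private theorem mem_E {B n : ℕ} {t : ℕ → Bool} {c d : ℕ → ℕ} {u v : ℕ} :
    (u, v) ∈ (gr B n t c d).2 ↔ ∃ j < n, (t j = true ∧ u = B * j ∧ v = B * j + 1) ∨
      (∃ k < c j, u = B * j ∧ v = B * j + 2 + k) ∨
      ∃ k < d j, u = B * j + 1 ∧ v = B * j + 2 + c j + k := by
  unfold gr compE
  simp only [List.mem_flatMap, List.mem_range, List.mem_append, List.mem_map, Prod.mk.injEq]
  constructor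
  · rintro ⟨j, hj, h | ⟨k, hk, h1, h2⟩ | ⟨k, hk, h1, h2⟩⟩
    · split_ifs at h with ht
      · exact ⟨j, hj, Or.inl ⟨ht, by simpa using h⟩⟩
      · simp at h
    · exact ⟨j, hj, Or.inr (Or.inl ⟨k, hk, h1.symm, h2.symm⟩)⟩
    · exact ⟨j, hj, Or.inr (Or.inr ⟨k, hk, h1.symm, h2.symm⟩)⟩
  · rintro ⟨j, hj, ⟨ht, h1, h2⟩ | ⟨k, hk, h1, h2⟩ | ⟨k, hk, h1, h2⟩⟩
    · refine ⟨j, hj, Or.inl ?_⟩
      rw [if_pos ht, h1, h2]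
      simp
    · exact ⟨j, hj, Or.inr (Or.inl ⟨k, hk, h1.symm, h2.symm⟩)⟩
    · exact ⟨j, hj, Or.inr (Or.inr ⟨k, hk, h1.symm, h2.symm⟩)⟩

theorem TaskAdj_proof : TaskAdj := by
  intro B n t c d _ hd u v
  unfold Adj
  constructor
  · rintro ⟨-, -, -, h | h⟩
    · obtain ⟨j, hj, ⟨ht, h1, h2⟩ | ⟨k, hk, h1, h2⟩ | ⟨k, hk, h1, h2⟩⟩ := mem_E.1 h
      · exact ⟨j, hj, Or.inl ⟨ht, Or.inl ⟨h1, h2⟩⟩⟩
      · exact ⟨j, hj, Or.inr (Or.inl ⟨k, hk, Or.inl ⟨h1, h2⟩⟩)⟩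
      · exact ⟨j, hj, Or.inr (Or.inr ⟨k, hk, Or.inl ⟨h1, h2⟩⟩)⟩
    · obtain ⟨j, hj, ⟨ht, h1, h2⟩ | ⟨k, hk, h1, h2⟩ | ⟨k, hk, h1, h2⟩⟩ := mem_E.1 h
      · exact ⟨j, hj, Or.inl ⟨ht, Or.inr ⟨h1, h2⟩⟩⟩
      · exact ⟨j, hj, Or.inr (Or.inl ⟨k, hk, Or.inr ⟨h1, h2⟩⟩)⟩
      · exact ⟨j, hj, Or.inr (Or.inr ⟨k, hk, Or.inr ⟨h1, h2⟩⟩)⟩
  · have hV0 : ∀ j < n, B * j ∈ (gr B n t c d).1 := fun j hj => mem_V.2 ⟨j, hj, Or.inl rfl⟩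
    have hV1 : ∀ j < n, t j = true → B * j + 1 ∈ (gr B n t c d).1 := fun j hj ht =>
      mem_V.2 ⟨j, hj, Or.inr (Or.inl ⟨ht, rfl⟩)⟩
    have hV2 : ∀ j < n, ∀ k < c j, B * j + 2 + k ∈ (gr B n t c d).1 := fun j hj k hk =>
      mem_V.2 ⟨j, hj, Or.inr (Or.inr ⟨k, by omega, rfl⟩)⟩
    have hV3 : ∀ j < n, ∀ k < d j, B * j + 2 + c j + k ∈ (gr B n t c d).1 := fun j hj k hk =>
      mem_V.2 ⟨j, hj, Or.inr (Or.inr ⟨c j + k, by omega, by omega⟩)⟩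
    have ht3 : ∀ j < n, ∀ k < d j, t j = true := by
      intro j hj k hk
      by_contra h
      have := hd j hj (by simpa using h)
      omega
    rintro ⟨j, hj, ⟨ht, ⟨rfl, rfl⟩ | ⟨rfl, rfl⟩⟩ | ⟨k, hk, ⟨rfl, rfl⟩ | ⟨rfl, rfl⟩⟩ |
      ⟨k, hk, ⟨rfl, rfl⟩ | ⟨rfl, rfl⟩⟩⟩
    · exact ⟨hV0 j hj, hV1 j hj ht, by omega, Or.inl (mem_E.2 ⟨j, hj, Or.inl ⟨ht, rfl, rfl⟩⟩)⟩
    · exact ⟨hV1 j hj ht, hV0 j hj, by omega, Or.inr (mem_E.2 ⟨j, hj, Or.inl ⟨ht, rfl, rfl⟩⟩)⟩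
    · exact ⟨hV0 j hj, hV2 j hj k hk, by omega,
        Or.inl (mem_E.2 ⟨j, hj, Or.inr (Or.inl ⟨k, hk, rfl, rfl⟩)⟩)⟩
    · exact ⟨hV2 j hj k hk, hV0 j hj, by omega,
        Or.inr (mem_E.2 ⟨j, hj, Or.inr (Or.inl ⟨k, hk, rfl, rfl⟩)⟩)⟩
    · exact ⟨hV1 j hj (ht3 j hj k hk), hV3 j hj k hk, by omega,
        Or.inl (mem_E.2 ⟨j, hj, Or.inr (Or.inr ⟨k, hk, rfl, rfl⟩)⟩)⟩
    · exact ⟨hV3 j hj k hk, hV1 j hj (ht3 j hj k hk), by omega,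
        Or.inr (mem_E.2 ⟨j, hj, Or.inr (Or.inr ⟨k, hk, rfl, rfl⟩)⟩)⟩

end Pool.Agent.NPC.Q325SI
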