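import Pool.Agent.Q325.SI.Stmts

/-!
# The boxes of the jobs contain no host
-/

set_option autoImplicit false

namespace Pool.Agent.NPC.Q325SI

open Pool.Agent.NPC.Q325TwoPM

/-- the position of an occurrence is below `2 M L`, and even -/
private lemma P_bound (φ : F3) {k : ℕ} (hk : k < M φ) :
    P φ k + 1 ≤ 2 * M φ * (2 * M φ + 4) ∧ P φ k % 2 = 0 ∧ 1 ≤ P φ k := by
  have hv : vid φ k < M φ := vid_lt hk
  have key : ∀ ρ : ℕ, ρ + 1 ≤ 2 * M φ → ρ * (2 * M φ + 4) + (2 * M φ + 4) ≤ 2 * M φ * (2 * M φ + 4) := by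
    intro ρ hρ
    have := Nat.mul_le_mul_right (2 * M φ + 4) hρ
    linarith
  have hpar : ∀ ρ : ℕ, (ρ * (2 * M φ + 4) + 2 * k + 4) % 2 = 0 := by
    intro ρ
    have : ρ * (2 * M φ + 4) + 2 * k + 4 = 2 * (ρ * (M φ + 2) + k + 2) := by ring
    rw [this]
    exact Nat.mul_mod_right 2 _
  unfold P
  split_ifs with h
  · have h1 := key (2 * vid φ k + 1) (by omega)
    exact ⟨by omega, hpar _, by omega⟩
  · have h1 := key (2 * vid φ k + 0) (by omega)
    exact ⟨by omega, hpar _, by omega⟩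

private lemma Q_form (φ : F3) (j : ℕ) :
    2 * M φ * (2 * M φ + 4) + 3 ≤ Q φ j ∧ Q φ j % 2 = 1 := by
  unfold Q
  refine ⟨by omega, ?_⟩
  have : 2 * M φ * (2 * M φ + 4) + 2 * j + 3 = 2 * (M φ * (2 * M φ + 4) + j + 1) + 1 := by ring
  rw [this]
  omega

/-- the ends of the region -/
private lemma region (φ : F3) {ρ : ℕ} (hρ : ρ < 2 * M φ) :
    hi φ ρ + 1 ≤ 2 * M φ * (2 * M φ + 4) ∧ lo φ ρ + 1 ≤ 2 * M φ * (2 * M φ + 4) := by
  have h1 := Nat.mul_le_mul_right (2 * M φ + 4) (show ρ + 1 ≤ 2 * M φ by omega)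
  have h2 : (ρ + 1) * (2 * M φ + 4) = ρ * (2 * M φ + 4) + (2 * M φ + 4) := by ring
  unfold hi lo
  constructor <;> omega

/-- no upper end of a region is in a region -/
private lemma not_hi (φ : F3) (ρ ρ' : ℕ) (h1 : lo φ ρ ≤ hi φ ρ') (h2 : hi φ ρ' < hi φ ρ) : False := by
  unfold lo hi at *
  rcases Nat.lt_or_ge ρ' ρ with h | h
  · have h3 := Nat.mul_le_mul_right (2 * M φ + 4) (show ρ' + 1 ≤ ρ by omega)
    have h4 : (ρ' + 1) * (2 * M φ + 4) = ρ' * (2 * M φ + 4) + (2 * M φ + 4) := by ring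
    omega
  · have h3 := Nat.mul_le_mul_right (2 * M φ + 4) h
    omega

theorem TaskBox_proof : TaskBox := by
  intro φ i c d hi' hc1 hd1 hj
  by_contra hcon
  rw [not_or, not_le, not_le] at hcon
  obtain ⟨hc2, hd2⟩ := hcon
  obtain ⟨j, hj, hcd⟩ := hj
  -- the host as a pair
  have hhost : ∃ j' < 2 * M φ, (hc φ j = ta φ j' ∧ hd φ j = pb φ j') ∨
      (hc φ j = pa φ j' ∧ hd φ j = fb φ j') := by
    by_cases h : j < 2 * M φ
    · refine ⟨j, h, Or.inl ?_⟩
      unfold hc hd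
      rw [if_pos h, if_pos h]
      exact ⟨rfl, rfl⟩
    · refine ⟨j - 2 * M φ, by omega, Or.inr ?_⟩
      unfold hc hd
      rw [if_neg h, if_neg h]
      exact ⟨rfl, rfl⟩
  obtain ⟨j', hj', hh⟩ := hhost
  by_cases him : i < M φ
  · -- a job of a variable
    have e1 : pa φ i = lo φ (2 * i) := by unfold pa; rw [if_pos him]
    have e2 : pb φ i = lo φ (2 * i + 1) := by unfold pb; rw [if_pos him]
    have e3 : ta φ i = hi φ (2 * i) := by unfold ta; rw [if_pos him]
    have e4 : fb φ i = hi φ (2 * i + 1) := by unfold fb; rw [if_pos him]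
    rw [e1] at hc1
    rw [e2] at hd1
    rw [e3] at hc2
    rw [e4] at hd2
    have r1 := region φ (show 2 * i < 2 * M φ by omega)
    have r2 := region φ (show 2 * i + 1 < 2 * M φ by omega)
    by_cases hjm : j' < M φ
    · have f1 : pa φ j' = lo φ (2 * j') := by unfold pa; rw [if_pos hjm]
      have f2 : pb φ j' = lo φ (2 * j' + 1) := by unfold pb; rw [if_pos hjm]
      have f3 : ta φ j' = hi φ (2 * j') := by unfold ta; rw [if_pos hjm]
      have f4 : fb φ j' = hi φ (2 * j' + 1) := by unfold fb; rw [if_pos hjm]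
      have n1 := not_hi φ (2 * i)
      have n2 := not_hi φ (2 * i + 1)
      rcases hh with ⟨g1, g2⟩ | ⟨g1, g2⟩ <;> rcases hcd with ⟨k1, k2⟩ | ⟨k1, k2⟩
      · exact n1 (2 * j') (by rw [← f3, ← g1, ← k1]; exact hc1) (by rw [← f3, ← g1, ← k1]; exact hc2)
      · exact n2 (2 * j') (by rw [← f3, ← g1, ← k2]; exact hd1) (by rw [← f3, ← g1, ← k2]; exact hd2)
      · exact n2 (2 * j' + 1) (by rw [← f4, ← g2, ← k2]; exact hd1)
          (by rw [← f4, ← g2, ← k2]; exact hd2)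
      · exact n1 (2 * j' + 1) (by rw [← f4, ← g2, ← k1]; exact hc1)
          (by rw [← f4, ← g2, ← k1]; exact hc2)
    · have f1 : pa φ j' = Q φ ((j' - M φ) / 3) - 1 := by unfold pa; rw [if_neg hjm]
      have f3 : ta φ j' = Q φ ((j' - M φ) / 3) := by unfold ta; rw [if_neg hjm]
      have q1 := Q_form φ ((j' - M φ) / 3)
      rcases hh with ⟨g1, g2⟩ | ⟨g1, g2⟩ <;> rcases hcd with ⟨k1, k2⟩ | ⟨k1, k2⟩ <;> omega
  · -- a job of an occurrence
    have e1 : pa φ i = Q φ ((i - M φ) / 3) - 1 := by unfold pa; rw [if_neg him]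
    have e2 : pb φ i = P φ (i - M φ) - 1 := by unfold pb; rw [if_neg him]
    have e3 : ta φ i = Q φ ((i - M φ) / 3) := by unfold ta; rw [if_neg him]
    have e4 : fb φ i = P φ (i - M φ) := by unfold fb; rw [if_neg him]
    have q0 := Q_form φ ((i - M φ) / 3)
    have p0 := P_bound φ (show i - M φ < M φ by omega)
    by_cases hjm : j' < M φ
    · have f1 : pa φ j' = lo φ (2 * j') := by unfold pa; rw [if_pos hjm]
      have f2 : pb φ j' = lo φ (2 * j' + 1) := by unfold pb; rw [if_pos hjm]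
      have f3 : ta φ j' = hi φ (2 * j') := by unfold ta; rw [if_pos hjm]
      have f4 : fb φ j' = hi φ (2 * j' + 1) := by unfold fb; rw [if_pos hjm]
      have r1 := region φ (show 2 * j' < 2 * M φ by omega)
      have r2 := region φ (show 2 * j' + 1 < 2 * M φ by omega)
      rcases hh with ⟨g1, g2⟩ | ⟨g1, g2⟩ <;> rcases hcd with ⟨k1, k2⟩ | ⟨k1, k2⟩ <;> omega
    · have f1 : pa φ j' = Q φ ((j' - M φ) / 3) - 1 := by unfold pa; rw [if_neg hjm]
      have f2 : pb φ j' = P φ (j' - M φ) - 1 := by unfold pb; rw [if_neg hjm]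
      have f3 : ta φ j' = Q φ ((j' - M φ) / 3) := by unfold ta; rw [if_neg hjm]
      have f4 : fb φ j' = P φ (j' - M φ) := by unfold fb; rw [if_neg hjm]
      have q1 := Q_form φ ((j' - M φ) / 3)
      have p1 := P_bound φ (show j' - M φ < M φ by omega)
      rcases hh with ⟨g1, g2⟩ | ⟨g1, g2⟩ <;> rcases hcd with ⟨k1, k2⟩ | ⟨k1, k2⟩ <;> omega

end Pool.Agent.NPC.Q325SI
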