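import Pool.Agent.Q325.SI.Stmts

/-! `TaskBwdG` (MP_143e72_lc): an embedding of the pattern gives the inequalities. -/

set_option autoImplicit false

namespace Pool.Agent.NPC.Q325SI

namespace BwdG

private lemma dm {B j r j' r' : ℕ} (h : B * j + r = B * j' + r') (hr : r < B) (hr' : r' < B) :
    j = j' ∧ r = r' := by
  have h1 : j = j' := by
    rcases lt_trichotomy j j' with h1 | h1 | h1
    · have h2 := Nat.mul_le_mul_left B (Nat.succ_le_of_lt h1)
      rw [Nat.mul_succ] at h2
      omega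
    · exact h1
    · have h2 := Nat.mul_le_mul_left B (Nat.succ_le_of_lt h1)
      rw [Nat.mul_succ] at h2
      omega
  subst h1
  exact ⟨rfl, by omega⟩

/-- adjacency in the component, in terms of offsets -/
private def R (a b r r' : ℕ) : Prop := (r = 0 ∧ r' = 1) ∨ (r = 1 ∧ r' = 0) ∨
  (r = 0 ∧ 2 ≤ r' ∧ r' < 2 + a) ∨ (r' = 0 ∧ 2 ≤ r ∧ r < 2 + a) ∨
  (r = 1 ∧ 2 + a ≤ r' ∧ r' < 2 + a + b) ∨ (r' = 1 ∧ 2 + a ≤ r ∧ r < 2 + a + b)

private lemma host_adj (hAdj : TaskAdj) (B n : ℕ) (hc hd : ℕ → ℕ)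
    (hB : ∀ j < n, hc j + hd j + 2 ≤ B) {u v : ℕ} (h : Adj (hostG B n hc hd) u v) :
    ∃ j < n, ∃ r r' : ℕ, u = B * j + r ∧ v = B * j + r' ∧ r < B ∧ r' < B ∧
      R (hc j) (hd j) r r' := by
  rw [hostG, hAdj B n (fun _ => true) hc hd hB (by simp)] at h
  obtain ⟨j, hj, h⟩ := h
  have hBj := hB j hj
  refine ⟨j, hj, ?_⟩
  rcases h with ⟨-, ⟨h1, h2⟩ | ⟨h1, h2⟩⟩ | ⟨k, hk, ⟨h1, h2⟩ | ⟨h1, h2⟩⟩ | ⟨k, hk, ⟨h1, h2⟩ | ⟨h1, h2⟩⟩
  · exact ⟨0, 1, by omega, by omega, by omega, by omega, by unfold R; omega⟩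
  · exact ⟨1, 0, by omega, by omega, by omega, by omega, by unfold R; omega⟩
  · exact ⟨0, 2 + k, by omega, by omega, by omega, by omega, by unfold R; omega⟩
  · exact ⟨2 + k, 0, by omega, by omega, by omega, by omega, by unfold R; omega⟩
  · exact ⟨1, 2 + hc j + k, by omega, by omega, by omega, by omega, by unfold R; omega⟩
  · exact ⟨2 + hc j + k, 1, by omega, by omega, by omega, by omega, by unfold R; omega⟩

private lemma centre (hAdj : TaskAdj) (B n : ℕ) (hc hd : ℕ → ℕ)
    (hB : ∀ j < n, hc j + hd j + 2 ≤ B) {u v v' : ℕ} (h : Adj (hostG B n hc hd) u v)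
    (h' : Adj (hostG B n hc hd) u v') (hv : v ≠ v') :
    ∃ p : Fin n × Bool, u = B * p.1 + (if p.2 = true then 1 else 0) := by
  obtain ⟨j, hj, r, r', hu, hv1, hr, hr', hR⟩ := host_adj hAdj B n hc hd hB h
  obtain ⟨j₁, hj₁, r₁, r₁', hu₁, hv₁, hr₁, hr₁', hR₁⟩ := host_adj hAdj B n hc hd hB h'
  obtain ⟨e1, e2⟩ := dm (hu.symm.trans hu₁) hr hr₁
  subst e1
  subst e2
  unfold R at hR hR₁
  have hrr : r = 0 ∨ r = 1 := by
    by_contra hcon
    apply hv
    omega
  rcases hrr with h0 | h0
  · exact ⟨(⟨j, hj⟩, false), by simp [hu, h0]⟩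
  · exact ⟨(⟨j, hj⟩, true), by simp [hu, h0]⟩

/-- neighbours of a centre of the host -/
private lemma nbr (hAdj : TaskAdj) (B n : ℕ) (hc hd : ℕ → ℕ)
    (hB : ∀ j < n, hc j + hd j + 2 ≤ B) (p : Fin n × Bool) {v : ℕ}
    (h : Adj (hostG B n hc hd) (B * p.1 + (if p.2 = true then 1 else 0)) v) :
    v = B * p.1 + (if (!p.2) = true then 1 else 0) ∨
    (B * p.1 + 2 + (if p.2 = true then hc p.1 else 0) ≤ v ∧
      v < B * p.1 + 2 + (if p.2 = true then hc p.1 else 0) +
        (if p.2 = true then hd p.1 else hc p.1)) := by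
  obtain ⟨j, hj, r, r', hu, hv1, hr, hr', hR⟩ := host_adj hAdj B n hc hd hB h
  obtain ⟨p1, p2⟩ := p
  have hBp := hB p1 p1.2
  cases p2
  · simp only [Bool.false_eq_true, if_false] at hu
    obtain ⟨e1, e2⟩ := dm hu (by omega) hr
    subst e1
    unfold R at hR
    simp only [Bool.not_false, if_true, Bool.false_eq_true, if_false]
    omega
  · simp only [if_true] at hu
    obtain ⟨e1, e2⟩ := dm hu (by omega) hr
    subst e1
    unfold R at hR
    simp only [Bool.not_true, if_true, Bool.false_eq_true, if_false]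
    omega

/-- the centres of the pattern -/
private def pv (B m l : ℕ) : (Fin m × Bool) ⊕ Fin l → ℕ
  | Sum.inl (i, b) => B * i + (if b = true then 1 else 0)
  | Sum.inr s => B * (m + s)

private def pl (m l : ℕ) (pc pd st : ℕ → ℕ) : (Fin m × Bool) ⊕ Fin l → ℕ
  | Sum.inl (i, b) => if b = true then pd i else pc i
  | Sum.inr s => st s

private def lf (B m l : ℕ) (pc : ℕ → ℕ) : (Fin m × Bool) ⊕ Fin l → ℕ → ℕ
  | Sum.inl (i, b), k => B * i + 2 + (if b = true then pc i else 0) + k
  | Sum.inr s, k => B * (m + s) + 2 + k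

section pat

variable (hAdj : TaskAdj) (B m l : ℕ) (pc pd st : ℕ → ℕ)
  (hP : ∀ j < m, pc j + pd j + 2 ≤ B) (hS : ∀ j < l, st j + 2 ≤ B)

include hAdj hP hS

private lemma pat_adj (u v : ℕ) : Adj (patG B m l pc pd st) u v ↔
  ∃ j < m + l, (decide (j < m) = true ∧
      ((u = B * j ∧ v = B * j + 1) ∨ (v = B * j ∧ u = B * j + 1))) ∨
    (∃ k < (if j < m then pc j else st (j - m)), (u = B * j ∧ v = B * j + 2 + k) ∨
      (v = B * j ∧ u = B * j + 2 + k)) ∨
    (∃ k < (if j < m then pd j else 0),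
      (u = B * j + 1 ∧ v = B * j + 2 + (if j < m then pc j else st (j - m)) + k) ∨
      (v = B * j + 1 ∧ u = B * j + 2 + (if j < m then pc j else st (j - m)) + k)) := by
  rw [patG, hAdj]
  · intro j hj
    by_cases h : j < m
    · simp only [h, if_true]
      exact hP j h
    · simp only [h, if_false]
      have := hS (j - m) (by omega)
      omega
  · intro j hj h
    simp only [decide_eq_false_iff_not] at h
    simp [h]

private lemma adj_leaf (x : (Fin m × Bool) ⊕ Fin l) (k : ℕ) (hk : k < pl m l pc pd st x) :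
    Adj (patG B m l pc pd st) (pv B m l x) (lf B m l pc x k) := by
  rw [pat_adj hAdj B m l pc pd st hP hS]
  rcases x with ⟨i, b⟩ | s
  · refine ⟨i, by omega, Or.inr ?_⟩
    have hi : (i : ℕ) < m := i.2
    cases b
    · left
      simp only [pl, Bool.false_eq_true, if_false] at hk
      refine ⟨k, by simpa [hi] using hk, Or.inl ⟨by simp [pv], by simp [lf]⟩⟩
    · right
      simp only [pl, if_true] at hk
      refine ⟨k, by simpa [hi] using hk, Or.inl ⟨by simp [pv], by simp [lf, hi]⟩⟩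
  · refine ⟨m + s, by omega, Or.inr (Or.inl ⟨k, ?_, Or.inl ⟨by simp [pv], by simp [lf]⟩⟩)⟩
    simp only [pl] at hk
    simpa using hk

private lemma adj_centres (i : Fin m) : Adj (patG B m l pc pd st)
    (pv B m l (Sum.inl (i, false))) (pv B m l (Sum.inl (i, true))) := by
  rw [pat_adj hAdj B m l pc pd st hP hS]
  exact ⟨i, by omega, Or.inl ⟨by simp, Or.inl ⟨by simp [pv], by simp [pv]⟩⟩⟩

omit hAdj in
private lemma lf_off (x : (Fin m × Bool) ⊕ Fin l) (k : ℕ) (hk : k < pl m l pc pd st x) :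
    ∃ j r : ℕ, lf B m l pc x k = B * j + r ∧ 2 ≤ r ∧ r < B := by
  rcases x with ⟨i, b⟩ | s
  · have h1 := hP i i.2
    cases b
    · simp only [pl, Bool.false_eq_true, if_false] at hk
      exact ⟨i, 2 + k, by simp only [lf, Bool.false_eq_true, if_false]; omega, by omega, by omega⟩
    · simp only [pl, if_true] at hk
      exact ⟨i, 2 + pc i + k, by simp only [lf, if_true]; omega, by omega, by omega⟩
  · have h1 := hS s s.2
    simp only [pl] at hk
    exact ⟨m + s, 2 + k, by simp only [lf]; omega, by omega, by omega⟩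

omit hAdj in
private lemma pv_off (x : (Fin m × Bool) ⊕ Fin l) :
    ∃ j r : ℕ, pv B m l x = B * j + r ∧ r < 2 ∧ 2 ≤ B := by
  rcases x with ⟨i, b⟩ | s
  · have h1 := hP i i.2
    cases b
    · exact ⟨i, 0, by simp [pv], by omega, by omega⟩
    · exact ⟨i, 1, by simp [pv], by omega, by omega⟩
  · have h1 := hS s s.2
    exact ⟨m + s, 0, by simp [pv], by omega, by omega⟩

omit hAdj in
private lemma lf_ne (x y : (Fin m × Bool) ⊕ Fin l) (k : ℕ) (hk : k < pl m l pc pd st x) :
    lf B m l pc x k ≠ pv B m l y := by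
  obtain ⟨j, r, h1, h2, h3⟩ := lf_off B m l pc pd st hP hS x k hk
  obtain ⟨j', r', h1', h2', h3'⟩ := pv_off B m l pc pd st hP hS y
  intro h
  rw [h1, h1'] at h
  obtain ⟨-, e⟩ := dm h h3 (by omega)
  omega

omit hAdj in
private lemma pv_inj (x y : (Fin m × Bool) ⊕ Fin l) (h : pv B m l x = pv B m l y) : x = y := by
  rcases x with ⟨i, b⟩ | s <;> rcases y with ⟨i', b'⟩ | s'
  · have h1 := hP i i.2
    have h2 := hP i' i'.2
    simp only [pv] at h
    obtain ⟨e1, e2⟩ := dm h (by split_ifs <;> omega) (by split_ifs <;> omega)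
    have e3 : i = i' := Fin.ext e1
    subst e3
    cases b <;> cases b' <;> simp_all
  · exfalso
    have h1 := hP i i.2
    simp only [pv] at h
    obtain ⟨e1, e2⟩ := dm (h.trans (Nat.add_zero _).symm) (by split_ifs <;> omega) (by omega)
    have := i.2
    omega
  · exfalso
    have h1 := hP i' i'.2
    simp only [pv] at h
    obtain ⟨e1, e2⟩ := dm (h.symm.trans (Nat.add_zero _).symm) (by split_ifs <;> omega) (by omega)
    have := i'.2
    omega
  · have h1 := hS s s.2
    simp only [pv] at h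
    obtain ⟨e1, e2⟩ := dm (B := B) (r := 0) (r' := 0) (by simpa using h) (by omega) (by omega)
    have e3 : s = s' := Fin.ext (by omega)
    rw [e3]

end pat

end BwdG

open BwdG in
theorem TaskBwdG_proof : TaskBwdG := by
  intro hAdj B n m l hc hd pc pd st hH hP hS hP1 hS2 hcard hcon
  obtain ⟨φ, hφ1, hφ2, hφ3⟩ := hcon
  -- every centre of the pattern goes to a centre of the host
  have hmem : ∀ x k, k < pl m l pc pd st x → lf B m l pc x k ∈ (patG B m l pc pd st).1 :=
    fun x k hk => (adj_leaf hAdj B m l pc pd st hP hS x k hk).2.1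
  have hpos : ∀ x, 0 < pl m l pc pd st x := by
    rintro (⟨i, b⟩ | s)
    · have := hP1 i i.2
      simp only [pl]
      split_ifs <;> omega
    · have := hS2 s s.2
      simp only [pl]
      omega
  have hmemc : ∀ x, pv B m l x ∈ (patG B m l pc pd st).1 :=
    fun x => (adj_leaf hAdj B m l pc pd st hP hS x 0 (hpos x)).1
  have hκ : ∀ x, ∃ p : Fin n × Bool, φ (pv B m l x) = B * p.1 + (if p.2 = true then 1 else 0) := by
    intro x
    rcases x with ⟨i, b⟩ | s
    · have h1 := hφ3 _ _ (adj_leaf hAdj B m l pc pd st hP hS (Sum.inl (i, b)) 0 (hpos _))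
      have h0 := adj_centres hAdj B m l pc pd st hP hS i
      have h2 : Adj (patG B m l pc pd st) (pv B m l (Sum.inl (i, b)))
          (pv B m l (Sum.inl (i, !b))) := by
        cases b
        · exact h0
        · exact ⟨h0.2.1, h0.1, h0.2.2.1.symm, h0.2.2.2.symm⟩
      refine centre hAdj B n hc hd hH h1 (hφ3 _ _ h2) ?_
      intro he
      exact lf_ne B m l pc pd st hP hS _ _ 0 (hpos _)
        (hφ2 _ (hmem _ 0 (hpos _)) _ (hmemc _) he)
    · have hst := hS2 s s.2
      have hk1 : 1 < pl m l pc pd st (Sum.inr s) := by simp only [pl]; omega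
      refine centre hAdj B n hc hd hH (hφ3 _ _ (adj_leaf hAdj B m l pc pd st hP hS
        (Sum.inr s) 0 (hpos _))) (hφ3 _ _ (adj_leaf hAdj B m l pc pd st hP hS
        (Sum.inr s) 1 hk1)) ?_
      intro he
      have := hφ2 _ (hmem _ 0 (hpos _)) _ (hmem _ 1 hk1) he
      simp only [lf] at this
      omega
  choose κ hκ using hκ
  have hinj : Function.Injective κ := by
    intro x y hxy
    have h1 : φ (pv B m l x) = φ (pv B m l y) := by rw [hκ, hκ, hxy]
    exact pv_inj B m l pc pd st hP hS x y (hφ2 _ (hmemc x) _ (hmemc y) h1)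
  have hbij : Function.Bijective κ := by
    rw [Fintype.bijective_iff_injective_and_card]
    refine ⟨hinj, ?_⟩
    simp only [Fintype.card_sum, Fintype.card_prod, Fintype.card_fin, Fintype.card_bool]
    omega
  let L : Fin n × Bool → ℕ := fun p => if p.2 = true then hd p.1 else hc p.1
  -- the leaves
  have hleaf : ∀ x, pl m l pc pd st x ≤ L (κ x) := by
    intro x
    have hmaps : ∀ k ∈ Finset.range (pl m l pc pd st x), φ (lf B m l pc x k) ∈
        Finset.Ico (B * (κ x).1 + 2 + (if (κ x).2 = true then hc (κ x).1 else 0))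
          (B * (κ x).1 + 2 + (if (κ x).2 = true then hc (κ x).1 else 0) + L (κ x)) := by
      intro k hk
      rw [Finset.mem_range] at hk
      have h1 := hφ3 _ _ (adj_leaf hAdj B m l pc pd st hP hS x k hk)
      rw [hκ x] at h1
      rcases nbr hAdj B n hc hd hH (κ x) h1 with h2 | h2
      · exfalso
        obtain ⟨y, hy⟩ := hbij.2 ((κ x).1, !(κ x).2)
        have h3 : φ (pv B m l y) = φ (lf B m l pc x k) := by
          rw [hκ y, hy, h2]
        exact lf_ne B m l pc pd st hP hS x y k hk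
          (hφ2 _ (hmem x k hk) _ (hmemc y) h3.symm)
      · exact Finset.mem_Ico.mpr h2
    have hio : Set.InjOn (fun k => φ (lf B m l pc x k)) (Finset.range (pl m l pc pd st x)) := by
      intro k hk k' hk' he
      rw [Finset.coe_range, Set.mem_Iio] at hk hk'
      have h1 := hφ2 _ (hmem x k hk) _ (hmem x k' hk') he
      rcases x with ⟨i, b⟩ | s
      · simp only [lf] at h1
        omega
      · simp only [lf] at h1
        omega
    have h2 := Finset.card_le_card_of_injOn _ hmaps hio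
    simpa using h2
  refine ⟨fun i => if h : i < m then L (κ (Sum.inl (⟨i, h⟩, false))) else 0,
    fun i => if h : i < m then L (κ (Sum.inl (⟨i, h⟩, true))) else 0, ?_, ?_⟩
  · intro i hi
    have h1 := hleaf (Sum.inl (⟨i, hi⟩, false))
    have h2 := hleaf (Sum.inl (⟨i, hi⟩, true))
    simp only [pl, Bool.false_eq_true, if_false] at h1
    simp only [pl, if_true] at h2
    simp only [hi, dif_pos]
    refine ⟨h1, h2, ?_⟩
    -- the two centres
    have h3 := hφ3 _ _ (adj_centres hAdj B m l pc pd st hP hS ⟨i, hi⟩)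
    rw [hκ (Sum.inl (⟨i, hi⟩, false))] at h3
    have h4 : κ (Sum.inl (⟨i, hi⟩, true)) =
        ((κ (Sum.inl (⟨i, hi⟩, false))).1, !(κ (Sum.inl (⟨i, hi⟩, false))).2) := by
      rcases nbr hAdj B n hc hd hH _ h3 with h5 | h5
      · obtain ⟨y, hy⟩ := hbij.2 ((κ (Sum.inl (⟨i, hi⟩, false))).1,
          !(κ (Sum.inl (⟨i, hi⟩, false))).2)
        have h6 : φ (pv B m l y) = φ (pv B m l (Sum.inl (⟨i, hi⟩, true))) := by
          rw [hκ y, hy, h5]
        have h7 := pv_inj B m l pc pd st hP hS _ _ (hφ2 _ (hmemc _) _ (hmemc _) h6)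
        rw [← hy, h7]
      · exfalso
        rw [hκ (Sum.inl (⟨i, hi⟩, true))] at h5
        set p := κ (Sum.inl (⟨i, hi⟩, false)) with hp
        set q := κ (Sum.inl (⟨i, hi⟩, true)) with hq
        have hp1 := hH p.1 p.1.2
        have hq1 := hH q.1 q.1.2
        obtain ⟨h5a, h5b⟩ := h5
        obtain ⟨t, ht⟩ := Nat.exists_eq_add_of_le h5a
        have ht2 : t < (if p.2 = true then hd p.1 else hc p.1) := by omega
        have hq2 : (if q.2 = true then 1 else 0) < 2 := by split_ifs <;> omega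
        have h8 : B * (q.1 : ℕ) + (if q.2 = true then 1 else 0) =
            B * (p.1 : ℕ) + (2 + (if p.2 = true then hc p.1 else 0) + t) := by omega
        obtain ⟨e1, e2⟩ := dm h8 (by omega) (by split_ifs at ht2 ⊢ <;> omega)
        omega
    rw [h4]
    refine ⟨(κ (Sum.inl (⟨i, hi⟩, false))).1, (κ (Sum.inl (⟨i, hi⟩, false))).1.2, ?_⟩
    cases hb : (κ (Sum.inl (⟨i, hi⟩, false))).2
    · left
      simp [L, hb]
    · right
      simp [L, hb]
  · intro τ
    have hcnt : ∀ (N : ℕ) (f : ℕ → ℕ), cnt N f τ = ∑ i : Fin N, if τ ≤ f i then 1 else 0 := by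
      intro N f
      rw [cnt, Finset.card_filter, Finset.sum_range]
    have h1 : ∑ x : (Fin m × Bool) ⊕ Fin l, (if τ ≤ L (κ x) then 1 else 0) =
        ∑ p : Fin n × Bool, (if τ ≤ L p then 1 else 0) :=
      hbij.sum_comp (fun p => if τ ≤ L p then 1 else 0)
    have h2 : ∑ p : Fin n × Bool, (if τ ≤ L p then 1 else 0) = cnt n hc τ + cnt n hd τ := by
      rw [hcnt, hcnt, Fintype.sum_prod_type, ← Finset.sum_add_distrib]
      apply Finset.sum_congr rfl
      intro i _
      rw [Fintype.sum_bool]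
      simp only [L, if_true, Bool.false_eq_true, if_false]
      exact add_comm _ _
    rw [← h2, ← h1, Fintype.sum_sum_type, Fintype.sum_prod_type, hcnt, hcnt, hcnt,
      ← Finset.sum_add_distrib]
    apply add_le_add
    · apply Finset.sum_le_sum
      intro i _
      rw [Fintype.sum_bool]
      simp only [i.2, dif_pos]
      exact (add_comm _ _).le
    · apply Finset.sum_le_sum
      intro s _
      have h3 := hleaf (Sum.inr s)
      simp only [pl] at h3
      split_ifs with h4 h5
      · exact le_rfl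
      · exact absurd (h4.trans h3) h5
      · exact Nat.zero_le _
      · exact le_rfl

end Pool.Agent.NPC.Q325SI
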