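import Pool.Agent.Q325.SI.Stmts

set_option autoImplicit false

namespace Pool.Agent.NPC.Q325SI

private theorem adj_symm {G : Gr} {u v : ℕ} (h : Adj G u v) : Adj G v u :=
  ⟨h.2.1, h.1, h.2.2.1.symm, h.2.2.2.symm⟩

private theorem mem_host {B n : ℕ} {hc hd : ℕ → ℕ} {j r : ℕ} (hj : j < n)
    (hr : r < hc j + hd j + 2) : B * j + r ∈ (hostG B n hc hd).1 := by
  simp only [hostG, gr, List.mem_flatMap, List.mem_range]
  refine ⟨j, hj, ?_⟩
  simp only [compV, if_true, List.mem_cons, List.mem_append, List.mem_map, List.mem_range,
    List.not_mem_nil, or_false]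
  rcases Nat.lt_or_ge r 2 with h | h
  · interval_cases r
    · left; simp
    · right; left; rfl
  · right; right
    exact ⟨r - 2, by omega, by omega⟩

/-- the valid offsets of the pattern -/
private def Val (m : ℕ) (pc pd st : ℕ → ℕ) (j r : ℕ) : Prop :=
  (j < m ∧ r < pc j + pd j + 2) ∨ (m ≤ j ∧ (r = 0 ∨ (2 ≤ r ∧ r < st (j - m) + 2)))

private theorem mem_pat {B m l : ℕ} {pc pd st : ℕ → ℕ} {u : ℕ}
    (hu : u ∈ (patG B m l pc pd st).1) :
    ∃ j < m + l, ∃ r, u = B * j + r ∧ Val m pc pd st j r := by
  simp only [patG, gr, List.mem_flatMap, List.mem_range] at hu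
  obtain ⟨j, hj, hu⟩ := hu
  refine ⟨j, hj, ?_⟩
  unfold Val
  by_cases hm : j < m
  · simp only [compV, hm, decide_true, if_true, List.mem_cons, List.mem_append, List.mem_map,
      List.mem_range, List.not_mem_nil, or_false] at hu
    rcases hu with h | h | ⟨k, hk, h⟩
    · exact ⟨0, by omega, Or.inl ⟨hm, by omega⟩⟩
    · exact ⟨1, by omega, Or.inl ⟨hm, by omega⟩⟩
    · exact ⟨2 + k, by omega, Or.inl ⟨hm, by omega⟩⟩
  · simp only [compV, hm, decide_false, if_false, List.mem_cons, List.mem_append, List.mem_map,
      List.mem_range, List.not_mem_nil, false_or, Bool.false_eq_true, Nat.add_zero] at hu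
    rcases hu with h | ⟨k, hk, h⟩
    · exact ⟨0, by omega, Or.inr ⟨by omega, Or.inl rfl⟩⟩
    · exact ⟨2 + k, by omega, Or.inr ⟨by omega, Or.inr ⟨by omega, by omega⟩⟩⟩

theorem TaskFwdG_proof : TaskFwdG := by
  intro hAdj B n m l hc hd pc pd st f g o hB hpB hsB hf hfi hg hgi
  let F : ℕ → ℕ := fun j => if j < m then f j else g (j - m)
  let R : ℕ → ℕ → ℕ := fun j r =>
    if j < m then (if r < 2 + pc j then r else r + (hc (f j) - pc j))
    else (if o (j - m) = true then r else if r = 0 then 1 else r + hc (g (j - m)))
  have hF : ∀ j < m + l, F j < n := by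
    intro j hj
    by_cases hm : j < m
    · simp only [F, hm, if_true]; exact (hf j hm).1
    · simp only [F, hm, if_false]; exact (hg (j - m) (by omega)).1
  have hR : ∀ j < m + l, ∀ r, Val m pc pd st j r → R j r < hc (F j) + hd (F j) + 2 := by
    intro j hj r hv
    by_cases hm : j < m
    · have h1 := hf j hm
      rcases hv with ⟨_, hv⟩ | ⟨hv, _⟩
      · simp only [F, R, hm, if_true]
        split_ifs <;> omega
      · omega
    · have h1 := (hg (j - m) (by omega)).2.1
      rcases hv with ⟨hv, _⟩ | ⟨_, hv⟩
      · omega
      · simp only [F, R, hm, if_false]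
        by_cases ho : o (j - m) = true
        · simp only [ho, if_true] at h1 ⊢
          omega
        · simp only [ho, if_false, Bool.false_eq_true] at h1 ⊢
          split_ifs <;> omega
  have hRB : ∀ j < m + l, ∀ r, Val m pc pd st j r → R j r < B := by
    intro j hj r hv
    have h1 := hR j hj r hv
    have h2 := hB (F j) (hF j hj)
    omega
  have hrB : ∀ j < m + l, ∀ r, Val m pc pd st j r → r < B := by
    intro j hj r hv
    by_cases hm : j < m
    · have h1 := hpB j hm
      rcases hv with ⟨_, hv⟩ | ⟨hv, _⟩ <;> omega
    · have h1 := hsB (j - m) (by omega)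
      rcases hv with ⟨hv, _⟩ | ⟨_, hv⟩ <;> omega
  have hval : ∀ j < m + l, ∀ r, r < B →
      B * F ((B * j + r) / B) + R ((B * j + r) / B) ((B * j + r) % B) = B * F j + R j r := by
    intro j hj r hr
    have hBp : 0 < B := by omega
    have h1 : (B * j + r) / B = j := by
      rw [Nat.mul_add_div hBp, Nat.div_eq_of_lt hr, Nat.add_zero]
    have h2 : (B * j + r) % B = r := by
      rw [Nat.mul_add_mod, Nat.mod_eq_of_lt hr]
    rw [h1, h2]
  refine ⟨fun u => B * F (u / B) + R (u / B) (u % B), ?_, ?_, ?_⟩
  · intro u hu
    obtain ⟨j, hj, r, rfl, hv⟩ := mem_pat hu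
    show B * F ((B * j + r) / B) + R ((B * j + r) / B) ((B * j + r) % B) ∈ _
    rw [hval j hj r (hrB j hj r hv)]
    exact mem_host (hF j hj) (hR j hj r hv)
  · intro u hu v hv' huv
    obtain ⟨j, hj, r, rfl, hv⟩ := mem_pat hu
    obtain ⟨j', hj', r', rfl, hw⟩ := mem_pat hv'
    replace huv : B * F ((B * j + r) / B) + R ((B * j + r) / B) ((B * j + r) % B) =
      B * F ((B * j' + r') / B) + R ((B * j' + r') / B) ((B * j' + r') % B) := huv
    rw [hval j hj r (hrB j hj r hv), hval j' hj' r' (hrB j' hj' r' hw)] at huv
    have e1 := hRB j hj r hv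
    have e2 := hRB j' hj' r' hw
    have hBp : 0 < B := by omega
    have hFF : F j = F j' := by
      have := congrArg (· / B) huv
      simpa [Nat.mul_add_div hBp, Nat.div_eq_of_lt e1, Nat.div_eq_of_lt e2] using this
    have hRR : R j r = R j' r' := by
      have := congrArg (· % B) huv
      simpa [Nat.mul_add_mod, Nat.mod_eq_of_lt e1, Nat.mod_eq_of_lt e2] using this
    by_cases hm : j < m
    · by_cases hm' : j' < m
      · simp only [F, hm, hm', if_true] at hFF
        have hjj : j = j' := hfi j hm j' hm' hFF
        subst hjj
        have h1 := hf j hm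
        simp only [R, hm, if_true] at hRR
        have : r = r' := by split_ifs at hRR <;> omega
        rw [this]
      · simp only [F, hm, hm', if_true, if_false] at hFF
        exact absurd hFF ((hg (j' - m) (by omega)).2.2 j hm)
    · by_cases hm' : j' < m
      · simp only [F, hm, hm', if_true, if_false] at hFF
        exact absurd hFF.symm ((hg (j - m) (by omega)).2.2 j' hm')
      · simp only [F, hm, hm', if_false] at hFF
        have h1 := (hg (j - m) (by omega)).2.1
        have h2 := (hg (j' - m) (by omega)).2.1
        have hv2 : r = 0 ∨ (2 ≤ r ∧ r < st (j - m) + 2) := by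
          rcases hv with ⟨h, _⟩ | ⟨_, h⟩
          · omega
          · exact h
        have hw2 : r' = 0 ∨ (2 ≤ r' ∧ r' < st (j' - m) + 2) := by
          rcases hw with ⟨h, _⟩ | ⟨_, h⟩
          · omega
          · exact h
        simp only [R, hm, hm', if_false] at hRR
        rw [hFF] at h1 hRR
        by_cases ho : o (j - m) = true
        · by_cases ho' : o (j' - m) = true
          · have hjj := hgi (j - m) (by omega) (j' - m) (by omega) hFF (by rw [ho, ho'])
            have : j = j' := by omega
            subst this
            simp only [ho, if_true] at hRR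
            rw [hRR]
          · simp only [ho, ho', if_true, if_false, Bool.false_eq_true] at h1 h2 hRR
            exfalso
            split_ifs at hRR <;> omega
        · by_cases ho' : o (j' - m) = true
          · simp only [ho, ho', if_true, if_false, Bool.false_eq_true] at h1 h2 hRR
            exfalso
            split_ifs at hRR <;> omega
          · have hoo : o (j - m) = o (j' - m) := by
              rw [Bool.not_eq_true] at ho ho'
              rw [ho, ho']
            have hjj := hgi (j - m) (by omega) (j' - m) (by omega) hFF hoo
            have : j = j' := by omega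
            subst this
            simp only [ho, if_false, Bool.false_eq_true] at hRR
            have : r = r' := by split_ifs at hRR <;> omega
            rw [this]
  · have hH := hAdj B (m + l) (fun j => decide (j < m))
      (fun j => if j < m then pc j else st (j - m)) (fun j => if j < m then pd j else 0)
      (by
        intro j hj
        by_cases hm : j < m
        · simp only [hm, if_true]; exact hpB j hm
        · simp only [hm, if_false]; have := hsB (j - m) (by omega); omega)
      (by
        intro j hj ht
        have : ¬ j < m := by simpa using ht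
        simp [this])
    have hG := hAdj B n (fun _ => true) hc hd hB (by simp)
    have key : ∀ j < m + l, ∀ u v : ℕ,
        (decide (j < m) = true ∧ (u = B * j ∧ v = B * j + 1)) ∨
        (∃ k < (if j < m then pc j else st (j - m)), u = B * j ∧ v = B * j + 2 + k) ∨
        (∃ k < (if j < m then pd j else 0), u = B * j + 1 ∧
          v = B * j + 2 + (if j < m then pc j else st (j - m)) + k) →
        Adj (hostG B n hc hd) (B * F (u / B) + R (u / B) (u % B))
          (B * F (v / B) + R (v / B) (v % B)) := by
      intro j hj u v h
      refine (hG _ _).2 ⟨F j, hF j hj, ?_⟩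
      by_cases hm : j < m
      · have h1 := hf j hm
        have h2 := hpB j hm
        simp only [hm, decide_true, true_and, if_true] at h
        rcases h with ⟨rfl, rfl⟩ | ⟨k, hk, rfl, rfl⟩ | ⟨k, hk, rfl, rfl⟩
        · left
          refine ⟨rfl, Or.inl ⟨?_, ?_⟩⟩
          · have := hval j hj 0 (by omega)
            rw [Nat.add_zero] at this
            rw [this]
            simp [R, hm]
          · rw [hval j hj 1 (by omega)]
            simp only [R, hm, if_true]
            rw [if_pos (by omega)]
        · right; left
          refine ⟨k, by simp only [F, hm, if_true]; omega, Or.inl ⟨?_, ?_⟩⟩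
          · have := hval j hj 0 (by omega)
            rw [Nat.add_zero] at this
            rw [this]
            simp [R, hm]
          · rw [Nat.add_assoc, hval j hj (2 + k) (by omega)]
            simp only [R, hm, if_true]
            rw [if_pos (by omega)]
            omega
        · right; right
          refine ⟨k, by simp only [F, hm, if_true]; omega, Or.inl ⟨?_, ?_⟩⟩
          · rw [hval j hj 1 (by omega)]
            simp only [R, hm, if_true]
            rw [if_pos (by omega)]
          · rw [Nat.add_assoc, Nat.add_assoc, hval j hj (2 + (pc j + k)) (by omega)]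
            simp only [R, F, hm, if_true]
            rw [if_neg (by omega)]
            omega
      · have h1 := (hg (j - m) (by omega)).2.1
        have h2 := hsB (j - m) (by omega)
        simp only [hm, decide_false, Bool.false_eq_true, false_and, false_or, if_false,
          Nat.not_lt_zero, exists_false, or_false] at h
        obtain ⟨k, hk, rfl, rfl⟩ := h
        have e0 := hval j hj 0 (by omega)
        rw [Nat.add_zero] at e0
        rw [Nat.add_assoc, e0, hval j hj (2 + k) (by omega)]
        by_cases ho : o (j - m) = true
        · simp only [ho, if_true] at h1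
          right; left
          refine ⟨k, by simp only [F, hm, if_false]; omega, Or.inl ⟨?_, ?_⟩⟩
          · simp [R, hm, ho]
          · simp only [R, hm, ho, if_false, if_true]
            omega
        · simp only [ho, if_false, Bool.false_eq_true] at h1
          right; right
          refine ⟨k, by simp only [F, hm, if_false]; omega, Or.inl ⟨?_, ?_⟩⟩
          · simp [R, hm, ho]
          · simp only [R, F, hm, ho, if_false, Bool.false_eq_true]
            rw [if_neg (by omega)]
            omega
    intro u v huv
    obtain ⟨j, hj, h⟩ := (hH u v).1 huv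
    rcases h with ⟨ht, h | h⟩ | ⟨k, hk, h | h⟩ | ⟨k, hk, h | h⟩
    · exact key j hj u v (Or.inl ⟨ht, h⟩)
    · exact adj_symm (key j hj v u (Or.inl ⟨ht, h⟩))
    · exact key j hj u v (Or.inr (Or.inl ⟨k, hk, h⟩))
    · exact adj_symm (key j hj v u (Or.inr (Or.inl ⟨k, hk, h⟩)))
    · exact key j hj u v (Or.inr (Or.inr ⟨k, hk, h⟩))
    · exact adj_symm (key j hj v u (Or.inr (Or.inr ⟨k, hk, h⟩)))

end Pool.Agent.NPC.Q325SI
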