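import Pool.Agent.Q325.SI.Stmts

/-! Task `SI.TaskHall` (helper179): Hall's theorem. -/

set_option autoImplicit false

namespace Pool.Agent.NPC.Q325SI

theorem TaskHall_proof : TaskHall := by
  classical
  intro l n st cs h
  let t : Fin l → Finset ℕ := fun s => (Finset.range n).filter fun j => st s ≤ cs j
  have hall : ∀ A : Finset (Fin l), A.card ≤ (A.biUnion t).card := by
    intro A
    rcases A.eq_empty_or_nonempty with rfl | hne
    · simp
    obtain ⟨s₀, hs₀, hmin⟩ := Finset.exists_min_image A (fun s : Fin l => st s) hne
    calc A.card = (A.image (fun s : Fin l => (s : ℕ))).card :=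
          (Finset.card_image_of_injective A Fin.val_injective).symm
      _ ≤ cnt l st (st s₀) := by
          apply Finset.card_le_card
          intro x hx
          rw [Finset.mem_image] at hx
          obtain ⟨s, hs, rfl⟩ := hx
          rw [Finset.mem_filter, Finset.mem_range]
          exact ⟨s.2, hmin s hs⟩
      _ ≤ cnt n cs (st s₀) := h _
      _ = (t s₀).card := rfl
      _ ≤ (A.biUnion t).card := Finset.card_le_card (Finset.subset_biUnion_of_mem t hs₀)
  obtain ⟨f, hf, hft⟩ := (Finset.all_card_le_biUnion_card_iff_exists_injective t).1 hall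
  refine ⟨fun s => if hs : s < l then f ⟨s, hs⟩ else 0, fun s hs => ?_, fun s hs s' hs' he => ?_⟩
  · have h1 := hft ⟨s, hs⟩
    simp only [t, Finset.mem_filter, Finset.mem_range] at h1
    simp only [hs, dif_pos]
    exact h1
  · simp only [hs, hs', dif_pos] at he
    have := hf he
    simpa using this

end Pool.Agent.NPC.Q325SI
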