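import Pool.Agent.Q325.SI.Stmts
import Pool.Agent.H671R2.PolyAuto

/-!
# Subgraph Isomorphism on `P_5`-subgraph-free graphs is in NP
-/

set_option autoImplicit false

namespace Pool.Agent.NPC.Q325SI

private def adjT (G : Gr) (u v : ℕ) : Bool :=
  decide (u ∈ G.1) && (decide (v ∈ G.1) && (!(decide (u = v)) &&
    (decide ((u, v) ∈ G.2) || decide ((v, u) ∈ G.2))))

private theorem adjT_iff (G : Gr) (u v : ℕ) : adjT G u v = true ↔ Adj G u v := by
  unfold adjT Adj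
  simp only [Bool.and_eq_true, Bool.or_eq_true, decide_eq_true_eq, Bool.not_eq_true',
    decide_eq_false_iff_not, ne_eq]

private def memT (p : Gr × Gr) (w : List (ℕ × ℕ)) : Bool :=
  (p.2.1.all fun u => w.any fun q => decide (q.1 = u)) &&
  ((w.all fun q => decide (q.2 ∈ p.1.1)) &&
  ((w.all fun q => w.all fun q' => !(decide (q.2 = q'.2)) || decide (q.1 = q'.1)) &&
  (w.all fun q => w.all fun q' => !(adjT p.2 q.1 q'.1) || adjT p.1 q.2 q'.2)))

private theorem memT_iff (p : Gr × Gr) (w : List (ℕ × ℕ)) : memT p w = true ↔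
    (∀ u ∈ p.2.1, ∃ q ∈ w, q.1 = u) ∧ (∀ q ∈ w, q.2 ∈ p.1.1) ∧
    (∀ q ∈ w, ∀ q' ∈ w, q.2 = q'.2 → q.1 = q'.1) ∧
    (∀ q ∈ w, ∀ q' ∈ w, Adj p.2 q.1 q'.1 → Adj p.1 q.2 q'.2) := by
  unfold memT
  simp only [Bool.and_eq_true, List.all_eq_true, List.any_eq_true, decide_eq_true_eq,
    Bool.or_eq_true, Bool.not_eq_true', decide_eq_false_iff_not]
  refine and_congr Iff.rfl (and_congr Iff.rfl (and_congr ?_ ?_))
  · exact forall_congr' fun q => imp_congr_right fun _ => forall_congr' fun q' =>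
      imp_congr_right fun _ => by rw [imp_iff_not_or]
  · refine forall_congr' fun q => imp_congr_right fun _ => forall_congr' fun q' =>
      imp_congr_right fun _ => ?_
    rw [imp_iff_not_or, ← adjT_iff, ← adjT_iff, Bool.not_eq_true]

private theorem contains_of (p : Gr × Gr) (w : List (ℕ × ℕ)) (h : memT p w = true) :
    Contains p.1 p.2 := by
  classical
  obtain ⟨h1, h2, h3, h4⟩ := (memT_iff p w).1 h
  have hex : ∀ u, ∃ y, u ∈ p.2.1 → (u, y) ∈ w := by
    intro u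
    by_cases hu : u ∈ p.2.1
    · obtain ⟨q, hq, rfl⟩ := h1 u hu
      exact ⟨q.2, fun _ => hq⟩
    · exact ⟨0, fun h => absurd h hu⟩
  choose φ hφ using hex
  refine ⟨φ, fun u hu => h2 _ (hφ u hu), fun u hu v hv huv => ?_, fun u v huv => ?_⟩
  · exact h3 _ (hφ u hu) _ (hφ v hv) huv
  · exact h4 _ (hφ u huv.1) _ (hφ v huv.2.1) huv

private theorem cert_of (p : Gr × Gr) (φ : ℕ → ℕ) (h1 : ∀ u ∈ p.2.1, φ u ∈ p.1.1)
    (h2 : ∀ u ∈ p.2.1, ∀ v ∈ p.2.1, φ u = φ v → u = v)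
    (h3 : ∀ u v, Adj p.2 u v → Adj p.1 (φ u) (φ v)) :
    memT p (p.2.1.map fun u => (u, φ u)) = true := by
  rw [memT_iff]
  refine ⟨fun u hu => ⟨(u, φ u), List.mem_map.2 ⟨u, hu, rfl⟩, rfl⟩, ?_, ?_, ?_⟩
  · intro q hq
    obtain ⟨u, hu, rfl⟩ := List.mem_map.1 hq
    exact h1 u hu
  · intro q hq q' hq' h
    obtain ⟨u, hu, rfl⟩ := List.mem_map.1 hq
    obtain ⟨v, hv, rfl⟩ := List.mem_map.1 hq'
    exact h2 u hu v hv h
  · intro q hq q' hq' h
    obtain ⟨u, hu, rfl⟩ := List.mem_map.1 hq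
    obtain ⟨v, hv, rfl⟩ := List.mem_map.1 hq'
    exact h3 u v h

private theorem poly_adjT {α : Type} [TEnc α] {G : α → Gr} {u v : α → ℕ} (hG : Poly G)
    (hu : Poly u) (hv : Poly v) : Poly (fun a => adjT (G a) (u a) (v a)) := by
  unfold adjT
  fun_prop

private theorem poly_memT : Poly (fun a : (Gr × Gr) × List (ℕ × ℕ) => memT a.1 a.2) := by
  unfold memT
  refine Poly.and ?_ (Poly.and ?_ (Poly.and ?_ ?_))
  · fun_prop
  · fun_prop
  · fun_prop
  · refine Poly.all (p := fun (a : (Gr × Gr) × List (ℕ × ℕ)) (q : ℕ × ℕ) =>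
      a.2.all fun q' => !(adjT a.1.2 q.1 q'.1) || adjT a.1.1 q.2 q'.2) (by fun_prop) ?_
    refine Poly.all (p := fun (b : ((Gr × Gr) × List (ℕ × ℕ)) × (ℕ × ℕ)) (q' : ℕ × ℕ) =>
      !(adjT b.1.1.2 b.2.1 q'.1) || adjT b.1.1.1 b.2.2 q'.2) (by fun_prop) ?_
    exact Poly.or (Poly.not (poly_adjT (by fun_prop) (by fun_prop) (by fun_prop)))
      (poly_adjT (by fun_prop) (by fun_prop) (by fun_prop))

theorem TaskMem_proof : TaskMem := by
  rintro ⟨f, hf, hf'⟩
  refine inNPP_of (β := List (ℕ × ℕ)) (R := fun a : (Gr × Gr) × List (ℕ × ℕ) =>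
    (f a.1.1 && f a.1.2) && memT a.1 a.2) ?_
    (Polynomial.X * (2 * Polynomial.X + 2) + 1) fun p => ?_
  · exact Poly.and (Poly.and (hf.comp (by fun_prop)) (hf.comp (by fun_prop))) poly_memT
  · have e : (Polynomial.X * (2 * Polynomial.X + 2) + 1 : Polynomial ℕ).eval (sz p) =
        sz p * (2 * sz p + 2) + 1 := by simp
    rw [e]
    unfold SI5
    constructor
    · rintro ⟨h1, h2, φ, h3, h4, h5⟩
      refine ⟨p.2.1.map fun u => (u, φ u), ?_, ?_⟩
      · have hp : sz p = (sz p.1.1 + sz p.1.2 + 1) + (sz p.2.1 + sz p.2.2 + 1) + 1 := by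
          rw [← sz_pair, ← sz_pair, ← sz_pair]
        have hb : ∀ a ∈ p.2.1.map (fun u => (u, φ u)), sz a ≤ 2 * sz p + 1 := by
          intro a ha
          obtain ⟨u, hu, rfl⟩ := List.mem_map.1 ha
          have h6 := sz_le_of_mem hu
          have h7 := sz_le_of_mem (h3 u hu)
          rw [sz_pair]
          omega
        refine (sz_le_length_mul _ _ hb).trans ?_
        rw [List.length_map]
        have h8 := length_lt_sz p.2.1
        exact Nat.add_le_add_right (Nat.mul_le_mul (by omega) (by omega)) 1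
      · simp only [Bool.and_eq_true]
        exact ⟨⟨(hf' _).2 h1, (hf' _).2 h2⟩, cert_of p φ h3 h4 h5⟩
    · rintro ⟨w, -, h⟩
      simp only [Bool.and_eq_true] at h
      exact ⟨(hf' _).1 h.1.1, (hf' _).1 h.1.2, contains_of p w h.2⟩

end Pool.Agent.NPC.Q325SI
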