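import Pool.Agent.Q325.SI.Stmts

/-!
# From the counting inequality to a satisfying assignment
-/

set_option autoImplicit false

namespace Pool.Agent.NPC.Q325SI

open Pool.Agent.NPC.Q325TwoPM Finset

private def I (τ x : ℕ) : ℕ := if τ ≤ x then 1 else 0

private theorem I_mono {τ x y : ℕ} (h : x ≤ y) : I τ x ≤ I τ y := by
  unfold I
  split_ifs <;> omega

private theorem I_one {τ x : ℕ} (h : τ ≤ x) : I τ x = 1 := by
  unfold I
  rw [if_pos h]

private theorem I_zero {τ x : ℕ} (h : x < τ) : I τ x = 0 := by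
  unfold I
  rw [if_neg (by omega)]

private theorem cnt_eq (n : ℕ) (c : ℕ → ℕ) (τ : ℕ) : cnt n c τ = ∑ i ∈ range n, I τ (c i) := by
  unfold cnt I
  rw [card_filter]

private theorem sum_double (f : ℕ → ℕ) (m : ℕ) :
    ∑ i ∈ range (2 * m), f i = ∑ i ∈ range m, f i + ∑ i ∈ range m, f (m + i) := by
  rw [two_mul, sum_range_add]

private theorem sum_even_odd (f : ℕ → ℕ) (m : ℕ) :
    ∑ i ∈ range (2 * m), f i = ∑ i ∈ range m, (f (2 * i) + f (2 * i + 1)) := by
  induction m with
  | zero => simp
  | succ m ih =>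
    rw [show 2 * (m + 1) = 2 * m + 1 + 1 by ring, sum_range_succ, sum_range_succ, ih,
      sum_range_succ]
    ring

private theorem sum_three (f : ℕ → ℕ) (m : ℕ) :
    ∑ i ∈ range (3 * m), f i = ∑ i ∈ range m, (f (3 * i) + f (3 * i + 1) + f (3 * i + 2)) := by
  induction m with
  | zero => simp
  | succ m ih =>
    rw [show 3 * (m + 1) = 3 * m + 1 + 1 + 1 by ring, sum_range_succ, sum_range_succ,
      sum_range_succ, ih, sum_range_succ]
    ring

private theorem unif (φ : F3) (c d : ℕ → ℕ) (τ : ℕ)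
    (h : cnt (2 * M φ) c τ + cnt (2 * M φ) d τ + cnt (4 * M φ) (st φ) τ ≤
      cnt (4 * M φ) (hc φ) τ + cnt (4 * M φ) (hd φ) τ) :
    ∑ i ∈ range (M φ), (I τ (c i) + I τ (c (M φ + i)) + I τ (d i) + I τ (d (M φ + i)) +
      I τ (lo φ (2 * i)) + I τ (lo φ (2 * i + 1)) + I τ (P φ i) + I τ (st φ (3 * M φ + i))) ≤
    ∑ i ∈ range (M φ), (I τ (hi φ (2 * i)) + I τ (Q φ (i / 3)) + I τ (lo φ (2 * i)) +
      I τ (Q φ (i / 3) - 1) + I τ (lo φ (2 * i + 1)) + I τ (P φ i - 1) + I τ (hi φ (2 * i + 1)) +
      I τ (P φ i)) := by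
  simp only [cnt_eq] at h
  obtain ⟨m, hm⟩ : ∃ m, m = M φ := ⟨_, rfl⟩
  rw [← hm] at h ⊢
  have e1 : ∑ i ∈ range (4 * m), I τ (st φ i) =
      (∑ i ∈ range m, (I τ (lo φ (2 * i)) + I τ (lo φ (2 * i + 1)))) +
        (∑ i ∈ range m, I τ (P φ i) + ∑ i ∈ range m, I τ (st φ (3 * m + i))) := by
    rw [show 4 * m = 2 * (2 * m) by ring, sum_double, ← sum_even_odd (fun i => I τ (lo φ i))]
    congr 1
    · refine sum_congr rfl fun i hi => ?_
      rw [mem_range] at hi
      unfold st
      rw [← hm, if_pos hi]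
    · rw [sum_double]
      congr 1
      · refine sum_congr rfl fun i hi => ?_
        rw [mem_range] at hi
        unfold st
        rw [← hm, if_neg (by omega), if_pos (by omega), show 2 * m + i - 2 * m = i by omega]
      · refine sum_congr rfl fun i _ => ?_
        rw [show 2 * m + (m + i) = 3 * m + i by ring]
  have e2 : ∑ i ∈ range (4 * m), I τ (hc φ i) =
      (∑ i ∈ range m, I τ (hi φ (2 * i)) + ∑ i ∈ range m, I τ (Q φ (i / 3))) +
        (∑ i ∈ range m, I τ (lo φ (2 * i)) + ∑ i ∈ range m, I τ (Q φ (i / 3) - 1)) := by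
    rw [show 4 * m = 2 * (2 * m) by ring, sum_double]
    congr 1
    · rw [sum_double]
      congr 1
      · refine sum_congr rfl fun i hi => ?_
        rw [mem_range] at hi
        unfold hc ta
        rw [← hm, if_pos (by omega), if_pos hi]
      · refine sum_congr rfl fun i hi => ?_
        rw [mem_range] at hi
        unfold hc ta
        rw [← hm, if_pos (by omega), if_neg (by omega), show m + i - m = i by omega]
    · rw [sum_double]
      congr 1
      · refine sum_congr rfl fun i hi => ?_
        rw [mem_range] at hi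
        unfold hc pa
        rw [← hm, if_neg (by omega), if_pos (by omega), show 2 * m + i - 2 * m = i by omega]
      · refine sum_congr rfl fun i hi => ?_
        rw [mem_range] at hi
        unfold hc pa
        rw [← hm, if_neg (by omega), if_neg (by omega),
          show 2 * m + (m + i) - 2 * m - m = i by omega]
  have e3 : ∑ i ∈ range (4 * m), I τ (hd φ i) =
      (∑ i ∈ range m, I τ (lo φ (2 * i + 1)) + ∑ i ∈ range m, I τ (P φ i - 1)) +
        (∑ i ∈ range m, I τ (hi φ (2 * i + 1)) + ∑ i ∈ range m, I τ (P φ i)) := by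
    rw [show 4 * m = 2 * (2 * m) by ring, sum_double]
    congr 1
    · rw [sum_double]
      congr 1
      · refine sum_congr rfl fun i hi => ?_
        rw [mem_range] at hi
        unfold hd pb
        rw [← hm, if_pos (by omega), if_pos hi]
      · refine sum_congr rfl fun i hi => ?_
        rw [mem_range] at hi
        unfold hd pb
        rw [← hm, if_pos (by omega), if_neg (by omega), show m + i - m = i by omega]
    · rw [sum_double]
      congr 1
      · refine sum_congr rfl fun i hi => ?_
        rw [mem_range] at hi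
        unfold hd fb
        rw [← hm, if_neg (by omega), if_pos (by omega), show 2 * m + i - 2 * m = i by omega]
      · refine sum_congr rfl fun i hi => ?_
        rw [mem_range] at hi
        unfold hd fb
        rw [← hm, if_neg (by omega), if_neg (by omega),
          show 2 * m + (m + i) - 2 * m - m = i by omega]
  rw [e1, e2, e3, sum_double, sum_double] at h
  simp only [sum_add_distrib] at h ⊢
  omega

private theorem hi_lt (φ : F3) {ρ' ρ : ℕ} (r : ℕ) (h : ρ' < ρ) :
    hi φ ρ' < ρ * (2 * M φ + 4) + r := by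
  unfold hi
  have h1 := Nat.mul_le_mul_right (2 * M φ + 4) (Nat.succ_le_of_lt h)
  rw [Nat.succ_mul] at h1
  omega

private theorem le_lo (φ : F3) {ρ' ρ r : ℕ} (h : ρ < ρ') (hr : r ≤ 2 * M φ + 5) :
    ρ * (2 * M φ + 4) + r ≤ lo φ ρ' := by
  unfold lo
  have h1 := Nat.mul_le_mul_right (2 * M φ + 4) (Nat.succ_le_of_lt h)
  rw [Nat.succ_mul] at h1
  omega

private theorem lo_le_hi (φ : F3) (ρ : ℕ) : lo φ ρ ≤ hi φ ρ := by
  unfold lo hi
  omega

private theorem P_lt (φ : F3) {k : ℕ} (hk : k < M φ) : P φ k < 2 * M φ * (2 * M φ + 4) := by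
  unfold P
  have h0 : vid φ k < M φ := vid_lt hk
  obtain ⟨ρ, hρ⟩ : ∃ ρ, ρ = 2 * vid φ k + if sgn φ k = true then 1 else 0 := ⟨_, rfl⟩
  have h1 : ρ < 2 * M φ := by
    rw [hρ]
    split_ifs <;> omega
  rw [← hρ]
  have h2 := Nat.mul_le_mul_right (2 * M φ + 4) (Nat.succ_le_of_lt h1)
  rw [Nat.succ_mul] at h2
  omega

theorem TaskNumB_proof : TaskNumB := by
  intro φ c d hjob hcnt
  refine ⟨fun x => decide (ta φ x ≤ c x), fun j hj => ?_⟩
  by_contra hcon
  push Not at hcon
  have hMφ : M φ = 3 * φ.length := rfl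
  -- the jobs
  have hv : ∀ i < M φ, lo φ (2 * i) ≤ c i ∧ lo φ (2 * i + 1) ≤ d i ∧
      (hi φ (2 * i) ≤ c i ∨ hi φ (2 * i + 1) ≤ d i) := by
    intro i hi
    have h := hjob i (by omega)
    unfold pa pb ta fb at h
    rwa [if_pos hi, if_pos hi, if_pos hi, if_pos hi] at h
  have ho : ∀ k < M φ, Q φ (k / 3) - 1 ≤ c (M φ + k) ∧ P φ k - 1 ≤ d (M φ + k) ∧
      (Q φ (k / 3) ≤ c (M φ + k) ∨ P φ k ≤ d (M φ + k)) := by
    intro k hk
    have h := hjob (M φ + k) (by omega)
    unfold pa pb ta fb at h
    rwa [if_neg (by omega), if_neg (by omega), if_neg (by omega), if_neg (by omega),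
      show M φ + k - M φ = k by omega] at h
  have hst : ∀ i, i < M φ → st φ (3 * M φ + i) = if i % 3 = 0 then Q φ (i / 3) else
      Q φ (i / 3) - 1 := by
    intro i hi
    unfold st
    rw [if_neg (by omega), if_neg (by omega), show 3 * M φ + i - 3 * M φ = i by omega]
  -- step 1
  have h1 : ∃ s < 3, c (M φ + (3 * j + s)) < Q φ j := by
    by_contra hall
    push Not at hall
    have hU := unif φ c d (Q φ j) (hcnt _)
    have hz : ∀ i ∈ range (M φ), I (Q φ j) (hi φ (2 * i)) + I (Q φ j) (Q φ (i / 3)) +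
        I (Q φ j) (lo φ (2 * i)) + I (Q φ j) (Q φ (i / 3) - 1) + I (Q φ j) (lo φ (2 * i + 1)) +
        I (Q φ j) (P φ i - 1) + I (Q φ j) (hi φ (2 * i + 1)) + I (Q φ j) (P φ i) =
        I (Q φ j) (Q φ (i / 3)) + I (Q φ j) (Q φ (i / 3) - 1) := by
      intro i hi'
      rw [mem_range] at hi'
      have a1 : hi φ (2 * i) < Q φ j := by
        have := hi_lt φ (2 * j + 3) (show 2 * i < 2 * M φ by omega)
        unfold Q
        omega
      have a2 : hi φ (2 * i + 1) < Q φ j := by
        have := hi_lt φ (2 * j + 3) (show 2 * i + 1 < 2 * M φ by omega)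
        unfold Q
        omega
      have a3 : P φ i < Q φ j := by
        have := P_lt φ hi'
        unfold Q
        omega
      rw [I_zero a1, I_zero a2, I_zero a3, I_zero (lt_of_le_of_lt (lo_le_hi φ _) a1),
        I_zero (lt_of_le_of_lt (lo_le_hi φ _) a2), I_zero (show P φ i - 1 < Q φ j by omega)]
      omega
    rw [sum_congr rfl hz] at hU
    have hU2 : ∑ i ∈ range (M φ), (I (Q φ j) (c (M φ + i)) + I (Q φ j) (st φ (3 * M φ + i))) ≤
        ∑ i ∈ range (M φ), (I (Q φ j) (Q φ (i / 3)) + I (Q φ j) (Q φ (i / 3) - 1)) := by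
      refine le_trans (sum_le_sum fun i _ => ?_) hU
      omega
    rw [hMφ, sum_three, sum_three] at hU2
    refine absurd hU2 (not_le.mpr (sum_lt_sum (fun j' hj' => ?_) ⟨j, mem_range.mpr hj, ?_⟩))
    · rw [mem_range] at hj'
      have b0 := ho (3 * j') (by omega)
      have b1 := ho (3 * j' + 1) (by omega)
      have b2 := ho (3 * j' + 2) (by omega)
      have s0 := hst (3 * j') (by omega)
      have s1 := hst (3 * j' + 1) (by omega)
      have s2 := hst (3 * j' + 2) (by omega)
      rw [show 3 * j' / 3 = j' by omega] at b0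
      rw [show (3 * j' + 1) / 3 = j' by omega] at b1
      rw [show (3 * j' + 2) / 3 = j' by omega] at b2
      rw [show 3 * j' / 3 = j' by omega, if_pos (by omega)] at s0
      rw [show (3 * j' + 1) / 3 = j' by omega, if_neg (by omega)] at s1
      rw [show (3 * j' + 2) / 3 = j' by omega, if_neg (by omega)] at s2
      rw [hMφ] at b0 b1 b2 s0 s1 s2
      rw [s0, s1, s2, show 3 * j' / 3 = j' by omega, show (3 * j' + 1) / 3 = j' by omega,
        show (3 * j' + 2) / 3 = j' by omega]
      have t0 := I_mono (τ := Q φ j) b0.1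
      have t1 := I_mono (τ := Q φ j) b1.1
      have t2 := I_mono (τ := Q φ j) b2.1
      by_cases hjj : j' = j
      · subst hjj
        have k0 := I_one (hall 0 (by omega))
        have k1 := I_one (hall 1 (by omega))
        have k2 := I_one (hall 2 (by omega))
        rw [hMφ] at k0 k1 k2
        rw [add_zero] at k0
        have k3 := I_one (le_refl (Q φ j'))
        have k4 := I_zero (show Q φ j' - 1 < Q φ j' by unfold Q; omega)
        omega
      · have k5 : I (Q φ j) (Q φ j') = I (Q φ j) (Q φ j' - 1) := by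
          unfold I Q
          split_ifs <;> omega
        omega
    · have k0 := I_one (hall 0 (by omega))
      have k1 := I_one (hall 1 (by omega))
      have k2 := I_one (hall 2 (by omega))
      have s0 := hst (3 * j) (by omega)
      have s1 := hst (3 * j + 1) (by omega)
      have s2 := hst (3 * j + 2) (by omega)
      rw [show 3 * j / 3 = j by omega, if_pos (by omega)] at s0
      rw [show (3 * j + 1) / 3 = j by omega, if_neg (by omega)] at s1
      rw [show (3 * j + 2) / 3 = j by omega, if_neg (by omega)] at s2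
      rw [hMφ] at k0 k1 k2 s0 s1 s2
      rw [add_zero] at k0
      rw [s0, s1, s2, show 3 * j / 3 = j by omega, show (3 * j + 1) / 3 = j by omega,
        show (3 * j + 2) / 3 = j by omega, k0, k1, k2]
      have k3 := I_one (le_refl (Q φ j))
      have k4 := I_zero (show Q φ j - 1 < Q φ j by unfold Q; omega)
      omega
  obtain ⟨s, hs3, hs⟩ := h1
  obtain ⟨k, hk⟩ : ∃ k, k = 3 * j + s := ⟨_, rfl⟩
  rw [← hk] at hs
  have hkM : k < M φ := by omega
  have hkj : k / 3 = j := by omega
  have hPk : P φ k ≤ d (M φ + k) := by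
    rcases (ho k hkM).2.2 with h | h
    · rw [hkj] at h
      omega
    · exact h
  have hlit := hcon s hs3
  rw [← hk] at hlit
  have hvM : vid φ k < M φ := vid_lt hkM
  have hU := unif φ c d (P φ k) (hcnt _)
  -- the position of `P k`
  have hlow : ∀ ρ', ρ' < (2 * vid φ k + if sgn φ k = true then 1 else 0) → hi φ ρ' < P φ k := by
    intro ρ' h
    have := hi_lt φ (2 * k + 4) h
    unfold P
    omega
  have hup : ∀ ρ', (2 * vid φ k + if sgn φ k = true then 1 else 0) < ρ' → P φ k ≤ lo φ ρ' := by
    intro ρ' h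
    have := le_lo φ h (show 2 * k + 4 ≤ 2 * M φ + 5 by omega)
    unfold P
    omega
  have hself : P φ k ≤ hi φ (2 * vid φ k + if sgn φ k = true then 1 else 0) := by
    unfold P hi
    omega
  have hQ : ∀ i, P φ k ≤ Q φ i - 1 := by
    intro i
    have := P_lt φ hkM
    unfold Q
    omega
  have hta : ta φ (vid φ k) = hi φ (2 * vid φ k) := by
    unfold ta
    rw [if_pos hvM]
  rw [hta] at hlit
  have r1 : ∀ i < M φ, I (P φ k) (hi φ (2 * i)) ≤ I (P φ k) (c i) := by
    intro i hi'
    rcases lt_trichotomy (2 * i) (2 * vid φ k + if sgn φ k = true then 1 else 0) with h | h | h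
    · rw [I_zero (hlow _ h)]
      exact Nat.zero_le _
    · by_cases hsg : sgn φ k = true
      · rw [if_pos hsg] at h
        omega
      · rw [if_neg hsg] at h
        have hiv : i = vid φ k := by omega
        rw [Bool.not_eq_true] at hsg
        rw [hsg] at hlit
        have h2 : hi φ (2 * vid φ k) ≤ c (vid φ k) := by
          by_contra hne
          exact hlit (decide_eq_false hne)
        rw [hiv]
        exact I_mono h2
    · rw [I_one (le_trans (hup _ h) (hv i hi').1)]
      unfold I
      split_ifs <;> omega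
  have r2 : ∀ i < M φ, I (P φ k) (hi φ (2 * i + 1)) ≤ I (P φ k) (d i) := by
    intro i hi'
    rcases lt_trichotomy (2 * i + 1) (2 * vid φ k + if sgn φ k = true then 1 else 0) with h | h | h
    · rw [I_zero (hlow _ h)]
      exact Nat.zero_le _
    · by_cases hsg : sgn φ k = true
      · rw [if_pos hsg] at h
        have hiv : i = vid φ k := by omega
        rw [hsg] at hlit
        have h2 : ¬ hi φ (2 * vid φ k) ≤ c (vid φ k) := fun hle => hlit (decide_eq_true hle)
        have h3 := (hv _ hvM).2.2.resolve_left h2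
        rw [hiv]
        exact I_mono h3
      · rw [if_neg hsg] at h
        omega
    · rw [I_one (le_trans (hup _ h) (hv i hi').2.1)]
      unfold I
      split_ifs <;> omega
  have r3 : ∀ i < M φ, I (P φ k) (c (M φ + i)) = 1 := fun i hi' =>
    I_one (le_trans (hQ _) (ho i hi').1)
  have r4 : ∀ i < M φ, I (P φ k) (st φ (3 * M φ + i)) = 1 := by
    intro i hi'
    rw [hst i hi']
    split_ifs
    · exact I_one (le_trans (hQ (i / 3)) (Nat.sub_le _ _))
    · exact I_one (hQ _)
  have r5 : ∀ i, I (P φ k) (Q φ (i / 3)) = 1 := fun i =>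
    I_one (le_trans (hQ (i / 3)) (Nat.sub_le _ _))
  have r6 : ∀ i, I (P φ k) (Q φ (i / 3) - 1) = 1 := fun i => I_one (hQ (i / 3))
  refine absurd hU (not_le.mpr (sum_lt_sum (fun i hi' => ?_) ⟨k, mem_range.mpr hkM, ?_⟩))
  · rw [mem_range] at hi'
    have q1 := r1 i hi'
    have q2 := r2 i hi'
    have q7 := I_mono (τ := P φ k) (ho i hi').2.1
    rw [r3 i hi', r4 i hi', r5 i, r6 i]
    omega
  · have q1 := r1 k hkM
    have q2 := r2 k hkM
    have q7 := I_one hPk
    have q8 := I_zero (show P φ k - 1 < P φ k by unfold P; omega)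
    rw [r3 k hkM, r4 k hkM, r5 k, r6 k, q7, q8]
    omega

end Pool.Agent.NPC.Q325SI
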