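import Pool.Agent.Q325.SI.Stmts

set_option autoImplicit false

namespace Pool.Agent.NPC.Q325SI

open Pool.Agent.NPC.Q325TwoPM Finset

private def I (a b : ℕ) : ℕ := if a ≤ b then 1 else 0

private theorem I_mono {a b c : ℕ} (h : b ≤ c) : I a b ≤ I a c := by
  unfold I; split_ifs <;> omega

private theorem cnt_eq (n : ℕ) (c : ℕ → ℕ) (τ : ℕ) : cnt n c τ = ∑ i ∈ range n, I τ (c i) := by
  unfold cnt I
  rw [Finset.card_filter]

private theorem sum_two (f : ℕ → ℕ) (m : ℕ) :
    ∑ s ∈ range (2 * m), f s = ∑ i ∈ range m, (f (2 * i) + f (2 * i + 1)) := by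
  induction m with
  | zero => simp
  | succ m ih =>
    rw [show 2 * (m + 1) = 2 * m + 1 + 1 by ring, sum_range_succ, sum_range_succ, ih,
      sum_range_succ]
    ring

private theorem sum_three (f : ℕ → ℕ) (m : ℕ) :
    ∑ s ∈ range (3 * m), f s = ∑ i ∈ range m, (f (3 * i) + f (3 * i + 1) + f (3 * i + 2)) := by
  induction m with
  | zero => simp
  | succ m ih =>
    rw [show 3 * (m + 1) = 3 * m + 1 + 1 + 1 by ring, sum_range_succ, sum_range_succ,
      sum_range_succ, ih, sum_range_succ]
    ring

private theorem sum_four (f : ℕ → ℕ) (m : ℕ) :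
    ∑ s ∈ range (4 * m), f s = ∑ s ∈ range m, f s + ∑ s ∈ range m, f (m + s) +
      ∑ s ∈ range m, f (2 * m + s) + ∑ s ∈ range m, f (3 * m + s) := by
  rw [show 4 * m = 3 * m + m by ring, sum_range_add, show 3 * m = 2 * m + m by ring, sum_range_add,
    show 2 * m = m + m by ring, sum_range_add]

private theorem P_inj {φ : F3} {k k' : ℕ} (hk : k < M φ) (hk' : k' < M φ) (h : P φ k = P φ k') :
    k = k' := by
  unfold P at h
  have e1 : ∀ a k : ℕ, k < M φ → (a * (2 * M φ + 4) + 2 * k + 4) % (2 * M φ + 4) = 2 * k + 4 := by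
    intro a k hk
    rw [show a * (2 * M φ + 4) + 2 * k + 4 = (2 * k + 4) + a * (2 * M φ + 4) by ring,
      Nat.add_mul_mod_self_right]
    exact Nat.mod_eq_of_lt (by omega)
  have h1 := e1 (2 * vid φ k + if sgn φ k = true then 1 else 0) k hk
  have h2 := e1 (2 * vid φ k' + if sgn φ k' = true then 1 else 0) k' hk'
  rw [h] at h1
  omega

theorem TaskNumF_proof : TaskNumF := by
  intro φ w hw τ
  rw [cnt_eq, cnt_eq, sum_four, sum_four]
  -- values of `cs`
  have c0 : ∀ i ∈ range (M φ), I τ (cs φ w i) = I τ (if w i = true then lo φ (2 * i) else hi φ (2 * i)) := by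
    intro i hi
    rw [mem_range] at hi
    simp only [cs, sel, pa, ta, hi, if_true, if_pos (show i < 2 * M φ by omega)]
  have c1' : ∀ k ∈ range (M φ), I τ (cs φ w (M φ + k)) =
      I τ (if w (vid φ k) = sgn φ k then Q φ (k / 3) else Q φ (k / 3) - 1) := by
    intro k hk
    rw [mem_range] at hk
    have h1 : M φ + k < 2 * M φ := by omega
    have h2 : ¬ (M φ + k < M φ) := by omega
    have h3 : M φ + k - M φ = k := by omega
    simp only [cs, sel, pa, ta, h1, h2, h3, if_true, if_false]
    by_cases h : w (vid φ k) = sgn φ k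
    · simp [h]
    · simp [h]
  have c2' : ∀ i ∈ range (M φ), I τ (cs φ w (2 * M φ + i)) =
      I τ (if w i = true then hi φ (2 * i + 1) else lo φ (2 * i + 1)) := by
    intro i hi
    rw [mem_range] at hi
    have h1 : ¬ (2 * M φ + i < 2 * M φ) := by omega
    have h3 : 2 * M φ + i - 2 * M φ = i := by omega
    simp only [cs, sel, pb, fb, h1, h3, hi, if_true, if_false]
  have c3' : ∀ k ∈ range (M φ), I τ (cs φ w (3 * M φ + k)) =
      I τ (if w (vid φ k) = sgn φ k then P φ k - 1 else P φ k) := by
    intro k hk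
    rw [mem_range] at hk
    have h1 : ¬ (3 * M φ + k < 2 * M φ) := by omega
    have h2 : ¬ (3 * M φ + k - 2 * M φ < M φ) := by omega
    have h3 : 3 * M φ + k - 2 * M φ - M φ = k := by omega
    simp only [cs, sel, pb, fb, h1, h2, h3, if_false]
    by_cases h : w (vid φ k) = sgn φ k
    · simp [h]
    · simp [h]
  -- values of `st`
  have s01 : ∑ s ∈ range (M φ), I τ (st φ s) + ∑ s ∈ range (M φ), I τ (st φ (M φ + s)) =
      ∑ i ∈ range (M φ), (I τ (lo φ (2 * i)) + I τ (lo φ (2 * i + 1))) := by
    rw [← sum_two (fun s => I τ (lo φ s)), show 2 * M φ = M φ + M φ by ring, sum_range_add]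
    congr 1
    · refine sum_congr rfl fun s hs => ?_
      rw [mem_range] at hs
      simp only [st, if_pos (show s < 2 * M φ by omega)]
    · refine sum_congr rfl fun s hs => ?_
      rw [mem_range] at hs
      simp only [st, if_pos (show M φ + s < 2 * M φ by omega)]
  have s2 : ∀ k ∈ range (M φ), I τ (st φ (2 * M φ + k)) = I τ (P φ k) := by
    intro k hk
    rw [mem_range] at hk
    have h1 : ¬ (2 * M φ + k < 2 * M φ) := by omega
    have h2 : 2 * M φ + k < 3 * M φ := by omega
    have h3 : 2 * M φ + k - 2 * M φ = k := by omega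
    simp only [st, h1, h2, h3, if_true, if_false]
  have s3 : ∀ k ∈ range (M φ), I τ (st φ (3 * M φ + k)) =
      I τ (if k % 3 = 0 then Q φ (k / 3) else Q φ (k / 3) - 1) := by
    intro k hk
    rw [mem_range] at hk
    have h1 : ¬ (3 * M φ + k < 2 * M φ) := by omega
    have h2 : ¬ (3 * M φ + k < 3 * M φ) := by omega
    have h3 : 3 * M φ + k - 3 * M φ = k := by omega
    simp only [st, h1, h2, h3, if_false]
  rw [sum_congr rfl c0, sum_congr rfl c1', sum_congr rfl c2', sum_congr rfl c3', s01,
    sum_congr rfl s2, sum_congr rfl s3]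
  -- clauses
  have hcl : ∑ k ∈ range (M φ), I τ (if k % 3 = 0 then Q φ (k / 3) else Q φ (k / 3) - 1) ≤
      ∑ k ∈ range (M φ), I τ (if w (vid φ k) = sgn φ k then Q φ (k / 3) else Q φ (k / 3) - 1) := by
    unfold M
    rw [sum_three, sum_three]
    refine sum_le_sum fun j hj => ?_
    rw [mem_range] at hj
    obtain ⟨s, hs, hws⟩ := hw j hj
    have d0 : 3 * j / 3 = j := by omega
    have d1 : (3 * j + 1) / 3 = j := by omega
    have d2 : (3 * j + 2) / 3 = j := by omega
    have m0 : 3 * j % 3 = 0 := by omega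
    have m1 : ¬ ((3 * j + 1) % 3 = 0) := by omega
    have m2 : ¬ ((3 * j + 2) % 3 = 0) := by omega
    rw [d0, d1, d2, if_pos m0, if_neg m1, if_neg m2]
    have hm : I τ (Q φ j - 1) ≤ I τ (Q φ j) := I_mono (by omega)
    have key : ∀ k, I τ (Q φ j - 1) ≤ I τ (if w (vid φ k) = sgn φ k then Q φ j else Q φ j - 1) := by
      intro k
      split_ifs
      · exact hm
      · exact le_rfl
    have k0 := key (3 * j)
    have k1 := key (3 * j + 1)
    have k2 := key (3 * j + 2)
    interval_cases s
    · rw [Nat.add_zero] at hws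
      rw [if_pos hws]
      omega
    · rw [if_pos hws]
      omega
    · rw [if_pos hws]
      omega
  -- regions
  have hlohi : ∀ ρ, lo φ ρ ≤ hi φ ρ := by
    intro ρ
    unfold lo hi
    omega
  have hreg : ∑ i ∈ range (M φ), (I τ (lo φ (2 * i)) + I τ (lo φ (2 * i + 1))) +
      ∑ k ∈ range (M φ), I τ (P φ k) ≤
      ∑ i ∈ range (M φ), (I τ (if w i = true then lo φ (2 * i) else hi φ (2 * i)) +
        I τ (if w i = true then hi φ (2 * i + 1) else lo φ (2 * i + 1))) +
      ∑ k ∈ range (M φ), I τ (if w (vid φ k) = sgn φ k then P φ k - 1 else P φ k) := by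
    by_cases hex : ∃ k0 < M φ, w (vid φ k0) = sgn φ k0 ∧ P φ k0 = τ
    · obtain ⟨k0, hk0, hlit, hPτ⟩ := hex
      have hv : vid φ k0 < M φ := vid_lt hk0
      have A : ∑ i ∈ range (M φ), ((I τ (lo φ (2 * i)) + I τ (lo φ (2 * i + 1))) +
          if i = vid φ k0 then 1 else 0) ≤
          ∑ i ∈ range (M φ), (I τ (if w i = true then lo φ (2 * i) else hi φ (2 * i)) +
            I τ (if w i = true then hi φ (2 * i + 1) else lo φ (2 * i + 1))) := by
        refine sum_le_sum fun i hi' => ?_
        by_cases hiv : i = vid φ k0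
        · subst hiv
          rw [if_pos rfl]
          by_cases hwi : w (vid φ k0) = true
          · rw [if_pos hwi, if_pos hwi]
            have hs : sgn φ k0 = true := by rw [← hlit, hwi]
            have e : P φ k0 = (2 * vid φ k0 + 1) * (2 * M φ + 4) + 2 * k0 + 4 := by
              unfold P; rw [if_pos hs]
            have f1 : I τ (lo φ (2 * vid φ k0 + 1)) = 0 := by
              unfold I lo; rw [if_neg]; rw [← hPτ, e]; omega
            have f2 : I τ (hi φ (2 * vid φ k0 + 1)) = 1 := by
              unfold I hi; rw [if_pos]; rw [← hPτ, e]; omega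
            omega
          · rw [if_neg hwi, if_neg hwi]
            have hs : ¬ (sgn φ k0 = true) := by rw [← hlit]; exact hwi
            have e : P φ k0 = (2 * vid φ k0) * (2 * M φ + 4) + 2 * k0 + 4 := by
              simp only [P, if_neg hs, Nat.add_zero]
            have f1 : I τ (lo φ (2 * vid φ k0)) = 0 := by
              unfold I lo; rw [if_neg]; rw [← hPτ, e]; omega
            have f2 : I τ (hi φ (2 * vid φ k0)) = 1 := by
              unfold I hi; rw [if_pos]; rw [← hPτ, e]; omega
            omega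
        · rw [if_neg hiv]
          have g1 := I_mono (a := τ) (hlohi (2 * i))
          have g2 := I_mono (a := τ) (hlohi (2 * i + 1))
          split_ifs <;> omega
      have B : ∑ k ∈ range (M φ), I τ (P φ k) ≤
          ∑ k ∈ range (M φ), (I τ (if w (vid φ k) = sgn φ k then P φ k - 1 else P φ k) +
            if k = k0 then 1 else 0) := by
        refine sum_le_sum fun k hk => ?_
        rw [mem_range] at hk
        by_cases hkk : k = k0
        · rw [if_pos hkk]
          have : I τ (P φ k) ≤ 1 := by unfold I; split_ifs <;> omega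
          omega
        · rw [if_neg hkk]
          have hne : P φ k ≠ τ := fun h => hkk (P_inj hk hk0 (h.trans hPτ.symm))
          have hle : I τ (P φ k) ≤ I τ (P φ k - 1) := by
            unfold I; split_ifs <;> omega
          split_ifs
          · omega
          · omega
      rw [sum_add_distrib, sum_ite_eq' (range (M φ)) (vid φ k0), if_pos (mem_range.2 hv)] at A
      rw [sum_add_distrib, sum_ite_eq' (range (M φ)) k0, if_pos (mem_range.2 hk0)] at B
      omega
    · have A : ∑ i ∈ range (M φ), (I τ (lo φ (2 * i)) + I τ (lo φ (2 * i + 1))) ≤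
          ∑ i ∈ range (M φ), (I τ (if w i = true then lo φ (2 * i) else hi φ (2 * i)) +
            I τ (if w i = true then hi φ (2 * i + 1) else lo φ (2 * i + 1))) := by
        refine sum_le_sum fun i hi' => ?_
        have g1 := I_mono (a := τ) (hlohi (2 * i))
        have g2 := I_mono (a := τ) (hlohi (2 * i + 1))
        split_ifs <;> omega
      have B : ∑ k ∈ range (M φ), I τ (P φ k) ≤
          ∑ k ∈ range (M φ), I τ (if w (vid φ k) = sgn φ k then P φ k - 1 else P φ k) := by
        refine sum_le_sum fun k hk => ?_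
        rw [mem_range] at hk
        by_cases hl : w (vid φ k) = sgn φ k
        · rw [if_pos hl]
          have hne : P φ k ≠ τ := fun h => hex ⟨k, hk, hl, h⟩
          unfold I; split_ifs <;> omega
        · rw [if_neg hl]
      omega
  rw [sum_add_distrib (s := range (M φ))
    (f := fun i => I τ (if w i = true then lo φ (2 * i) else hi φ (2 * i)))] at hreg
  omega

end Pool.Agent.NPC.Q325SI
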