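import Pool.Agent.Q325.SI.Stmts

set_option autoImplicit false

namespace Pool.Agent.NPC.Q325SI

private theorem edge_of_mem {B j : ℕ} {t : Bool} {c d u v : ℕ} (h : (u, v) ∈ compE B j t c d) :
    ∃ r s : ℕ, u = B * j + r ∧ v = B * j + s ∧
      ((r = 0 ∧ s = 1) ∨ (r = 0 ∧ 2 ≤ s ∧ s < 2 + c) ∨ (r = 1 ∧ 2 + c ≤ s ∧ s < 2 + c + d)) := by
  unfold compE at h
  rcases List.mem_append.1 h with h | h
  · split_ifs at h with ht
    · simp only [List.mem_singleton, Prod.mk.injEq] at h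
      exact ⟨0, 1, by omega, by omega, by omega⟩
    · simp at h
  · rcases List.mem_append.1 h with h | h
    · obtain ⟨k, hk, hkk⟩ := List.mem_map.1 h
      rw [List.mem_range] at hk
      rw [Prod.mk.injEq] at hkk
      exact ⟨0, 2 + k, by omega, by omega, by omega⟩
    · obtain ⟨k, hk, hkk⟩ := List.mem_map.1 h
      rw [List.mem_range] at hk
      rw [Prod.mk.injEq] at hkk
      exact ⟨1, 2 + c + k, by omega, by omega, by omega⟩

private def Rel (c x y : ℕ) : Prop :=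
  (x = 0 ∧ y = 1) ∨ (y = 0 ∧ x = 1) ∨ (x = 0 ∧ 2 ≤ y ∧ y < 2 + c) ∨ (y = 0 ∧ 2 ≤ x ∧ x < 2 + c) ∨
    (x = 1 ∧ 2 + c ≤ y) ∨ (y = 1 ∧ 2 + c ≤ x)

private theorem adj_rel {B n : ℕ} {t : ℕ → Bool} {c d : ℕ → ℕ} (hB : ∀ j < n, c j + d j + 2 ≤ B)
    {u v : ℕ} (h : Adj (gr B n t c d) u v) :
    ∃ j < n, ∃ r s : ℕ, r < B ∧ s < B ∧ u = B * j + r ∧ v = B * j + s ∧ Rel (c j) r s := by
  obtain ⟨-, -, -, h⟩ := h
  rcases h with h | h
  · obtain ⟨j, hj, hje⟩ := List.mem_flatMap.1 h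
    rw [List.mem_range] at hj
    have hb := hB j hj
    obtain ⟨r, s, hu, hv, hrs⟩ := edge_of_mem hje
    exact ⟨j, hj, r, s, by omega, by omega, hu, hv, by unfold Rel; omega⟩
  · obtain ⟨j, hj, hje⟩ := List.mem_flatMap.1 h
    rw [List.mem_range] at hj
    have hb := hB j hj
    obtain ⟨r, s, hu, hv, hrs⟩ := edge_of_mem hje
    exact ⟨j, hj, s, r, by omega, by omega, hv, hu, by unfold Rel; omega⟩

private theorem split_eq {B j j' r r' : ℕ} (hr : r < B) (hr' : r' < B)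
    (h : B * j + r = B * j' + r') : j = j' ∧ r = r' := by
  have hB : 0 < B := by omega
  have h1 : (B * j + r) / B = j := by
    rw [Nat.mul_add_div hB, Nat.div_eq_of_lt hr, Nat.add_zero]
  have h2 : (B * j' + r') / B = j' := by
    rw [Nat.mul_add_div hB, Nat.div_eq_of_lt hr', Nat.add_zero]
  have h3 : j = j' := by rw [← h1, ← h2, h]
  subst h3
  exact ⟨rfl, by omega⟩

private theorem rel_mid {c x y z : ℕ} (h1 : Rel c x y) (h2 : Rel c y z) (h : x ≠ z) : y ≤ 1 := by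
  unfold Rel at h1 h2
  omega

theorem TaskP5_proof : TaskP5 := by
  intro B n t c d hB _ h
  obtain ⟨v1, v2, v3, v4, v5, hnd, h12, h23, h34, h45⟩ := h
  obtain ⟨j1, hj1, r1, r2, hr1, hr2, e1, e2, R12⟩ := adj_rel hB h12
  obtain ⟨j2, hj2, s2, s3, hs2, hs3, f2, f3, R23⟩ := adj_rel hB h23
  obtain ⟨j3, hj3, p3, p4, hp3, hp4, g3, g4, R34⟩ := adj_rel hB h34
  obtain ⟨j4, hj4, q4, q5, hq4, hq5, k4, k5, R45⟩ := adj_rel hB h45
  obtain ⟨rfl, rfl⟩ := split_eq hr2 hs2 (e2.symm.trans f2)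
  obtain ⟨rfl, rfl⟩ := split_eq hs3 hp3 (f3.symm.trans g3)
  obtain ⟨rfl, rfl⟩ := split_eq hp4 hq4 (g4.symm.trans k4)
  simp only [List.nodup_cons, List.mem_cons, List.not_mem_nil, or_false, not_or] at hnd
  obtain ⟨⟨-, n13, -, -⟩, ⟨n23, n24, -⟩, ⟨n34, n35⟩, -, -⟩ := hnd
  have m2 := rel_mid R12 R23 (by omega)
  have m3 := rel_mid R23 R34 (by omega)
  have m4 := rel_mid R34 R45 (by omega)
  omega

end Pool.Agent.NPC.Q325SI
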