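import Pool.Agent.Q325.SI.Stmts
import Pool.Agent.Q325.MatchNP

/-!
The reduction is polynomial (the bounds of `TaskSizes` are a hypothesis).
-/

set_option autoImplicit false

namespace Pool.Agent.NPC.Q325SI

open Pool.Agent.NPC.Q325TwoPM

section

variable {α : Type} [TEnc α]

private theorem p_compV {B j : α → ℕ} {t : α → Bool} {c d : α → ℕ} (hB : Poly B) (hj : Poly j)
    (ht : Poly t) (hc : UPoly c) (hd : UPoly d) :
    Poly (fun a => compV (B a) (j a) (t a) (c a) (d a)) := by
  unfold compV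
  have hBj : Poly (fun a => B a * j a) := Poly.mul hB hj
  refine Poly.cons hBj (Poly.append ?_ ?_)
  · exact Poly.ite (p := fun a => t a = true) (Poly.decide_bool ht)
      (Poly.cons (Poly.add hBj (Poly.const 1)) (Poly.const [])) (Poly.const [])
  · exact Poly.map (F := fun a k => B a * j a + 2 + k) (UPoly.add hc hd).range
      (Poly.add (Poly.add (hBj.comp (Poly.fst Poly.id)) (Poly.const 2)) (Poly.snd Poly.id))

private theorem p_compE {B j : α → ℕ} {t : α → Bool} {c d : α → ℕ} (hB : Poly B) (hj : Poly j)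
    (ht : Poly t) (hc : UPoly c) (hd : UPoly d) :
    Poly (fun a => compE (B a) (j a) (t a) (c a) (d a)) := by
  unfold compE
  have hBj : Poly (fun a => B a * j a) := Poly.mul hB hj
  have hBj' : Poly (fun p : α × ℕ => B p.1 * j p.1) := hBj.comp (Poly.fst Poly.id)
  have hc' : Poly (fun p : α × ℕ => c p.1) := hc.toPoly.comp (Poly.fst Poly.id)
  refine Poly.append ?_ (Poly.append ?_ ?_)
  · exact Poly.ite (p := fun a => t a = true) (Poly.decide_bool ht)
      (Poly.cons (Poly.pair hBj (Poly.add hBj (Poly.const 1))) (Poly.const [])) (Poly.const [])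
  · exact Poly.map (F := fun a k => (B a * j a, B a * j a + 2 + k)) hc.range
      (Poly.pair hBj' (Poly.add (Poly.add hBj' (Poly.const 2)) (Poly.snd Poly.id)))
  · exact Poly.map (F := fun a k => (B a * j a + 1, B a * j a + 2 + c a + k)) hd.range
      (Poly.pair (Poly.add hBj' (Poly.const 1))
        (Poly.add (Poly.add (Poly.add hBj' (Poly.const 2)) hc') (Poly.snd Poly.id)))

private theorem gr_min (B n : ℕ) (t : ℕ → Bool) (c d : ℕ → ℕ) (U : ℕ) (hc : ∀ j < n, c j ≤ U)
    (hd : ∀ j < n, d j ≤ U) :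
    gr B n t (fun j => min (c j) U) (fun j => min (d j) U) = gr B n t c d := by
  unfold gr
  have h1 : (List.range n).map (fun j => compV B j (t j) (min (c j) U) (min (d j) U)) =
      (List.range n).map (fun j => compV B j (t j) (c j) (d j)) := by
    refine List.map_congr_left fun j hj => ?_
    rw [List.mem_range] at hj
    rw [min_eq_left (hc j hj), min_eq_left (hd j hj)]
  have h2 : (List.range n).map (fun j => compE B j (t j) (min (c j) U) (min (d j) U)) =
      (List.range n).map (fun j => compE B j (t j) (c j) (d j)) := by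
    refine List.map_congr_left fun j hj => ?_
    rw [List.mem_range] at hj
    rw [min_eq_left (hc j hj), min_eq_left (hd j hj)]
  simp only [List.flatMap_def]
  rw [h1, h2]

private theorem p_gr {B n U : α → ℕ} {t : α → ℕ → Bool} {c d : α → ℕ → ℕ} (hB : Poly B)
    (hn : UPoly n) (hU : UPoly U) (ht : Poly (fun p : α × ℕ => t p.1 p.2))
    (hc : Poly (fun p : α × ℕ => c p.1 p.2)) (hd : Poly (fun p : α × ℕ => d p.1 p.2))
    (hcU : ∀ a, ∀ j < n a, c a j ≤ U a) (hdU : ∀ a, ∀ j < n a, d a j ≤ U a) :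
    Poly (fun a => gr (B a) (n a) (t a) (c a) (d a)) := by
  refine Poly.congr (f := fun a => gr (B a) (n a) (t a) (fun j => min (c a j) (U a))
    (fun j => min (d a j) (U a))) ?_ (fun a => gr_min _ _ _ _ _ _ (hcU a) (hdU a))
  unfold gr
  have hU' : UPoly (fun p : α × ℕ => U p.1) := hU.comp (Poly.fst Poly.id)
  have hc' : UPoly (fun p : α × ℕ => min (c p.1 p.2) (U p.1)) :=
    UPoly.of_le (Poly.min hc hU'.toPoly) hU' (fun _ => min_le_right _ _)
  have hd' : UPoly (fun p : α × ℕ => min (d p.1 p.2) (U p.1)) :=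
    UPoly.of_le (Poly.min hd hU'.toPoly) hU' (fun _ => min_le_right _ _)
  refine Poly.pair ?_ ?_
  · exact Poly.flatMap (F := fun a j => compV (B a) j (t a j) (min (c a j) (U a))
      (min (d a j) (U a))) hn.range
      (p_compV (hB.comp (Poly.fst Poly.id)) (Poly.snd Poly.id) ht hc' hd')
  · exact Poly.flatMap (F := fun a j => compE (B a) j (t a j) (min (c a j) (U a))
      (min (d a j) (U a))) hn.range
      (p_compE (hB.comp (Poly.fst Poly.id)) (Poly.snd Poly.id) ht hc' hd')

private theorem uM {φ : α → F3} (hφ : Poly φ) : UPoly (fun a => M (φ a)) :=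
  UPoly.mul (UPoly.const 3) (UPoly.length hφ)

private theorem uW {φ : α → F3} (hφ : Poly φ) : UPoly (fun a => 2 * M (φ a) + 4) :=
  UPoly.add (UPoly.mul (UPoly.const 2) (uM hφ)) (UPoly.const 4)

private theorem uBB {φ : α → F3} (hφ : Poly φ) : UPoly (fun a => BB (φ a)) := by
  unfold BB
  exact UPoly.add (UPoly.mul (UPoly.const 2) (UPoly.add (UPoly.add
    (UPoly.mul (UPoly.mul (UPoly.const 2) (uM hφ)) (uW hφ)) (UPoly.mul (UPoly.const 2) (uM hφ)))
    (UPoly.const 4))) (UPoly.const 2)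

variable {φ : α → F3} {k : α → ℕ}

private theorem p_lo (hφ : Poly φ) (hk : Poly k) : Poly (fun a => lo (φ a) (k a)) := by
  unfold lo
  exact Poly.add (Poly.mul hk (uW hφ).toPoly) (Poly.const 2)

private theorem p_hi (hφ : Poly φ) (hk : Poly k) : Poly (fun a => hi (φ a) (k a)) := by
  unfold hi
  exact Poly.add (Poly.add (Poly.mul hk (uW hφ).toPoly)
    (Poly.mul (Poly.const 2) (uM hφ).toPoly)) (Poly.const 3)

private theorem p_P (hφ : Poly φ) (hk : Poly k) : Poly (fun a => P (φ a) (k a)) := by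
  unfold P
  exact Poly.add (Poly.add (Poly.mul (Poly.add (Poly.mul (Poly.const 2) (poly_vid hφ hk))
    (Poly.ite (p := fun a => sgn (φ a) (k a) = true) (Poly.decide_bool (Poly.fst (poly_lit hφ hk)))
      (Poly.const 1) (Poly.const 0))) (uW hφ).toPoly) (Poly.mul (Poly.const 2) hk)) (Poly.const 4)

private theorem p_Q (hφ : Poly φ) (hk : Poly k) : Poly (fun a => Q (φ a) (k a)) := by
  unfold Q
  exact Poly.add (Poly.add (Poly.mul (Poly.mul (Poly.const 2) (uM hφ).toPoly) (uW hφ).toPoly)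
    (Poly.mul (Poly.const 2) hk)) (Poly.const 3)

private theorem p_Q3 (hφ : Poly φ) (hk : Poly k) :
    Poly (fun a => Q (φ a) ((k a - M (φ a)) / 3)) :=
  p_Q hφ (Poly.div (Poly.sub hk (uM hφ).toPoly) (Poly.const 3))

private theorem p_pa (hφ : Poly φ) (hk : Poly k) : Poly (fun a => pa (φ a) (k a)) := by
  unfold pa
  exact Poly.ite (p := fun a => k a < M (φ a)) (Poly.decide_lt hk (uM hφ).toPoly)
    (p_lo hφ (Poly.mul (Poly.const 2) hk)) (Poly.sub (p_Q3 hφ hk) (Poly.const 1))

private theorem p_pb (hφ : Poly φ) (hk : Poly k) : Poly (fun a => pb (φ a) (k a)) := by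
  unfold pb
  exact Poly.ite (p := fun a => k a < M (φ a)) (Poly.decide_lt hk (uM hφ).toPoly)
    (p_lo hφ (Poly.add (Poly.mul (Poly.const 2) hk) (Poly.const 1)))
    (Poly.sub (p_P hφ (Poly.sub hk (uM hφ).toPoly)) (Poly.const 1))

private theorem p_ta (hφ : Poly φ) (hk : Poly k) : Poly (fun a => ta (φ a) (k a)) := by
  unfold ta
  exact Poly.ite (p := fun a => k a < M (φ a)) (Poly.decide_lt hk (uM hφ).toPoly)
    (p_hi hφ (Poly.mul (Poly.const 2) hk)) (p_Q3 hφ hk)

private theorem p_fb (hφ : Poly φ) (hk : Poly k) : Poly (fun a => fb (φ a) (k a)) := by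
  unfold fb
  exact Poly.ite (p := fun a => k a < M (φ a)) (Poly.decide_lt hk (uM hφ).toPoly)
    (p_hi hφ (Poly.add (Poly.mul (Poly.const 2) hk) (Poly.const 1)))
    (p_P hφ (Poly.sub hk (uM hφ).toPoly))

private theorem p_st (hφ : Poly φ) (hk : Poly k) : Poly (fun a => st (φ a) (k a)) := by
  have h2 : Poly (fun a => 2 * M (φ a)) := Poly.mul (Poly.const 2) (uM hφ).toPoly
  have h3 : Poly (fun a => 3 * M (φ a)) := Poly.mul (Poly.const 3) (uM hφ).toPoly
  have h4 : Poly (fun a => k a - 3 * M (φ a)) := Poly.sub hk h3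
  have h5 : Poly (fun a => Q (φ a) ((k a - 3 * M (φ a)) / 3)) :=
    p_Q hφ (Poly.div h4 (Poly.const 3))
  unfold st
  exact Poly.ite (p := fun a => k a < 2 * M (φ a)) (Poly.decide_lt hk h2) (p_lo hφ hk)
    (Poly.ite (p := fun a => k a < 3 * M (φ a)) (Poly.decide_lt hk h3) (p_P hφ (Poly.sub hk h2))
      (Poly.ite (p := fun a => (k a - 3 * M (φ a)) % 3 = 0)
        (Poly.decide_eq (Poly.mod h4 (Poly.const 3)) (Poly.const 0)) h5
        (Poly.sub h5 (Poly.const 1))))

private theorem p_hc (hφ : Poly φ) (hk : Poly k) : Poly (fun a => hc (φ a) (k a)) := by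
  have h2 : Poly (fun a => 2 * M (φ a)) := Poly.mul (Poly.const 2) (uM hφ).toPoly
  unfold hc
  exact Poly.ite (p := fun a => k a < 2 * M (φ a)) (Poly.decide_lt hk h2) (p_ta hφ hk)
    (p_pa hφ (Poly.sub hk h2))

private theorem p_hd (hφ : Poly φ) (hk : Poly k) : Poly (fun a => hd (φ a) (k a)) := by
  have h2 : Poly (fun a => 2 * M (φ a)) := Poly.mul (Poly.const 2) (uM hφ).toPoly
  unfold hd
  exact Poly.ite (p := fun a => k a < 2 * M (φ a)) (Poly.decide_lt hk h2) (p_pb hφ hk)
    (p_fb hφ (Poly.sub hk h2))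

end

theorem TaskPoly_proof (hs : TaskSizes) : TaskPoly := by
  have hp : Poly (fun φ : F3 => φ) := Poly.id
  have hp1 : Poly (fun p : F3 × ℕ => p.1) := Poly.fst Poly.id
  have hp2 : Poly (fun p : F3 × ℕ => p.2) := Poly.snd Poly.id
  have h2M : UPoly (fun φ : F3 => 2 * M φ) := UPoly.mul (UPoly.const 2) (uM hp)
  have h4M : UPoly (fun φ : F3 => 4 * M φ) := UPoly.mul (UPoly.const 4) (uM hp)
  have h2M' : Poly (fun p : F3 × ℕ => 2 * M p.1) := Poly.mul (Poly.const 2) (uM hp1).toPoly
  unfold TaskPoly red hostG patG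
  refine Poly.pair ?_ ?_
  · refine p_gr (U := fun φ => BB φ) (t := fun _ _ => true) (c := fun φ j => hc φ j)
      (d := fun φ j => hd φ j) (uBB hp).toPoly h4M (uBB hp) (Poly.const true) (p_hc hp1 hp2)
      (p_hd hp1 hp2) ?_ ?_
    · intro φ j hj
      have := ((hs φ).1 j hj).2.2
      omega
    · intro φ j hj
      have := ((hs φ).1 j hj).2.2
      omega
  · have hlt : Poly (fun p : F3 × ℕ => decide (p.2 < 2 * M p.1)) := Poly.decide_lt hp2 h2M'
    refine p_gr (U := fun φ => BB φ) (t := fun φ j => decide (j < 2 * M φ))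
      (c := fun φ j => if j < 2 * M φ then pa φ j else st φ (j - 2 * M φ))
      (d := fun φ j => if j < 2 * M φ then pb φ j else 0) (uBB hp).toPoly (UPoly.add h2M h4M)
      (uBB hp) hlt ?_ ?_ ?_ ?_
    · exact Poly.ite (p := fun p : F3 × ℕ => p.2 < 2 * M p.1) hlt (p_pa hp1 hp2)
        (p_st hp1 (Poly.sub hp2 h2M'))
    · exact Poly.ite (p := fun p : F3 × ℕ => p.2 < 2 * M p.1) hlt (p_pb hp1 hp2) (Poly.const 0)
    · intro φ j hj
      split_ifs with h
      · have := ((hs φ).2.1 j h).2.2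
        omega
      · have := ((hs φ).2.2 (j - 2 * M φ) (by omega)).2
        omega
    · intro φ j hj
      split_ifs with h
      · have := ((hs φ).2.1 j h).2.2
        omega
      · exact Nat.zero_le _

end Pool.Agent.NPC.Q325SI
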