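import Pool.Agent.Q325.SI.Stmts

set_option autoImplicit false

namespace Pool.Agent.NPC.Q325SI

open Pool.Agent.NPC

private def neB (u v : ℕ) : Bool := !(decide (u = v))

private def adB (G : Gr) (u v : ℕ) : Bool :=
  neB u v && (decide ((u, v) ∈ G.2) || decide ((v, u) ∈ G.2))

private def tst (G : Gr) (a b c d e : ℕ) : Bool :=
  ((adB G a b && adB G b c) && (adB G c d && adB G d e)) &&
    ((neB a c && (neB a d && neB a e)) && (neB b d && (neB b e && neB c e)))

private def l1 (G : Gr) (a b c d : ℕ) : Bool := G.1.any fun e => tst G a b c d e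
private def l2 (G : Gr) (a b c : ℕ) : Bool := G.1.any fun d => l1 G a b c d
private def l3 (G : Gr) (a b : ℕ) : Bool := G.1.any fun c => l2 G a b c
private def l4 (G : Gr) (a : ℕ) : Bool := G.1.any fun b => l3 G a b
private def l5 (G : Gr) : Bool := G.1.any fun a => l4 G a

section poly
variable {α : Type} [TEnc α]

private theorem neB_poly {u v : α → ℕ} (hu : Poly u) (hv : Poly v) :
    Poly (fun x => neB (u x) (v x)) := Poly.not (Poly.decide_eq hu hv)

private theorem adB_poly {G : α → Gr} {u v : α → ℕ} (hG : Poly G) (hu : Poly u) (hv : Poly v) :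
    Poly (fun x => adB (G x) (u x) (v x)) :=
  Poly.and (neB_poly hu hv) (Poly.or
    ((Poly.decide_mem (Poly.pair hu hv) (Poly.snd hG)).congr fun _ => decide_eq_decide.2 Iff.rfl)
    ((Poly.decide_mem (Poly.pair hv hu) (Poly.snd hG)).congr fun _ => decide_eq_decide.2 Iff.rfl))

private theorem tst_poly {G : α → Gr} {a b c d e : α → ℕ} (hG : Poly G) (ha : Poly a)
    (hb : Poly b) (hc : Poly c) (hd : Poly d) (he : Poly e) :
    Poly (fun x => tst (G x) (a x) (b x) (c x) (d x) (e x)) :=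
  Poly.and (Poly.and (Poly.and (adB_poly hG ha hb) (adB_poly hG hb hc))
      (Poly.and (adB_poly hG hc hd) (adB_poly hG hd he)))
    (Poly.and (Poly.and (neB_poly ha hc) (Poly.and (neB_poly ha hd) (neB_poly ha he)))
      (Poly.and (neB_poly hb hd) (Poly.and (neB_poly hb he) (neB_poly hc he))))

private theorem l1_poly {G : α → Gr} {a b c d : α → ℕ} (hG : Poly G) (ha : Poly a)
    (hb : Poly b) (hc : Poly c) (hd : Poly d) :
    Poly (fun x => l1 (G x) (a x) (b x) (c x) (d x)) :=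
  Poly.any (p := fun x e => tst (G x) (a x) (b x) (c x) (d x) e) (Poly.fst hG)
    (tst_poly (hG.comp (Poly.fst Poly.id)) (ha.comp (Poly.fst Poly.id))
      (hb.comp (Poly.fst Poly.id)) (hc.comp (Poly.fst Poly.id)) (hd.comp (Poly.fst Poly.id))
      (Poly.snd Poly.id))

private theorem l2_poly {G : α → Gr} {a b c : α → ℕ} (hG : Poly G) (ha : Poly a)
    (hb : Poly b) (hc : Poly c) : Poly (fun x => l2 (G x) (a x) (b x) (c x)) :=
  Poly.any (p := fun x e => l1 (G x) (a x) (b x) (c x) e) (Poly.fst hG)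
    (l1_poly (hG.comp (Poly.fst Poly.id)) (ha.comp (Poly.fst Poly.id))
      (hb.comp (Poly.fst Poly.id)) (hc.comp (Poly.fst Poly.id)) (Poly.snd Poly.id))

private theorem l3_poly {G : α → Gr} {a b : α → ℕ} (hG : Poly G) (ha : Poly a)
    (hb : Poly b) : Poly (fun x => l3 (G x) (a x) (b x)) :=
  Poly.any (p := fun x e => l2 (G x) (a x) (b x) e) (Poly.fst hG)
    (l2_poly (hG.comp (Poly.fst Poly.id)) (ha.comp (Poly.fst Poly.id))
      (hb.comp (Poly.fst Poly.id)) (Poly.snd Poly.id))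

private theorem l4_poly {G : α → Gr} {a : α → ℕ} (hG : Poly G) (ha : Poly a) :
    Poly (fun x => l4 (G x) (a x)) :=
  Poly.any (p := fun x e => l3 (G x) (a x) e) (Poly.fst hG)
    (l3_poly (hG.comp (Poly.fst Poly.id)) (ha.comp (Poly.fst Poly.id)) (Poly.snd Poly.id))

private theorem l5_poly {G : α → Gr} (hG : Poly G) : Poly (fun x => l5 (G x)) :=
  Poly.any (p := fun x e => l4 (G x) e) (Poly.fst hG)
    (l4_poly (hG.comp (Poly.fst Poly.id)) (Poly.snd Poly.id))

end poly

private theorem l5_iff (G : Gr) : l5 G = true ↔ ∃ a b c d e : ℕ, [a, b, c, d, e].Nodup ∧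
    Adj G a b ∧ Adj G b c ∧ Adj G c d ∧ Adj G d e := by
  simp only [l5, l4, l3, l2, l1, List.any_eq_true, tst, adB, neB, Bool.and_eq_true,
    Bool.or_eq_true, Bool.not_eq_true', decide_eq_true_eq, decide_eq_false_iff_not]
  constructor
  · rintro ⟨a, ha, b, hb, c, hc, d, hd, e, he, ⟨⟨h1, h2⟩, h3, h4⟩, ⟨h5, h6, h7⟩, h8, h9, h10⟩
    refine ⟨a, b, c, d, e, ?_, ⟨ha, hb, h1⟩, ⟨hb, hc, h2⟩, ⟨hc, hd, h3⟩, ⟨hd, he, h4⟩⟩
    have a1 := h1.1
    have a2 := h2.1
    have a3 := h3.1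
    have a4 := h4.1
    simp only [List.nodup_cons, List.mem_cons, List.not_mem_nil, or_false, not_or,
      not_false_eq_true, List.nodup_nil, and_true]
    tauto
  · rintro ⟨a, b, c, d, e, h, ⟨ha, hb, h1⟩, ⟨-, hc, h2⟩, ⟨-, hd, h3⟩, ⟨-, he, h4⟩⟩
    simp only [List.nodup_cons, List.mem_cons, List.not_mem_nil, or_false, not_or,
      not_false_eq_true, List.nodup_nil, and_true] at h
    refine ⟨a, ha, b, hb, c, hc, d, hd, e, he, ⟨⟨h1, h2⟩, h3, h4⟩, ⟨?_, ?_, ?_⟩, ?_, ?_, ?_⟩ <;>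
      tauto

theorem TaskPolyP5_proof : TaskPolyP5 := by
  refine ⟨fun G => !(l5 G), Poly.not (l5_poly Poly.id), fun G => ?_⟩
  unfold P5Free
  rw [← l5_iff, Bool.not_eq_true', Bool.not_eq_true]

end Pool.Agent.NPC.Q325SI
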