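import Pool.Agent.Q325.SI.Stmts

set_option autoImplicit false

namespace Pool.Agent.NPC.Q325SI

open Pool.Agent.NPC.Q325TwoPM

private def XX (φ : F3) : ℕ := 2 * M φ * (2 * M φ + 4) + 2 * M φ + 4

private lemma lo_bd (φ : F3) (ρ : ℕ) (h : ρ < 2 * M φ) : 2 ≤ lo φ ρ ∧ lo φ ρ ≤ XX φ := by
  have h1 := Nat.mul_le_mul_right (2 * M φ + 4) h.le
  unfold lo XX
  omega

private lemma hi_bd (φ : F3) (ρ : ℕ) (h : ρ < 2 * M φ) : 2 ≤ hi φ ρ ∧ hi φ ρ ≤ XX φ := by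
  have h1 := Nat.mul_le_mul_right (2 * M φ + 4) h.le
  unfold hi XX
  omega

private lemma P_bd (φ : F3) (k : ℕ) (h : k < M φ) : 3 ≤ P φ k ∧ P φ k ≤ XX φ := by
  have hv := vid_lt (φ := φ) (k := k) h
  have hb : (2 * vid φ k + if sgn φ k = true then 1 else 0) ≤ 2 * M φ := by
    have h2 : M φ = 3 * φ.length := rfl
    split_ifs <;> omega
  have h1 := Nat.mul_le_mul_right (2 * M φ + 4) hb
  unfold P XX
  omega

private lemma Q_bd (φ : F3) (j : ℕ) (h : j ≤ M φ) : 3 ≤ Q φ j ∧ Q φ j ≤ XX φ := by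
  unfold Q XX
  omega

private lemma pa_bd (φ : F3) (i : ℕ) (h : i < 2 * M φ) : 2 ≤ pa φ i ∧ pa φ i ≤ XX φ := by
  unfold pa
  split_ifs with h1
  · exact lo_bd φ _ (by omega)
  · have h2 := Q_bd φ ((i - M φ) / 3) (by omega)
    omega

private lemma pb_bd (φ : F3) (i : ℕ) (h : i < 2 * M φ) : 2 ≤ pb φ i ∧ pb φ i ≤ XX φ := by
  unfold pb
  split_ifs with h1
  · exact lo_bd φ _ (by omega)
  · have h2 := P_bd φ (i - M φ) (by omega)
    omega

private lemma ta_bd (φ : F3) (i : ℕ) (h : i < 2 * M φ) : 2 ≤ ta φ i ∧ ta φ i ≤ XX φ := by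
  unfold ta
  split_ifs with h1
  · exact hi_bd φ _ (by omega)
  · have h2 := Q_bd φ ((i - M φ) / 3) (by omega)
    omega

private lemma fb_bd (φ : F3) (i : ℕ) (h : i < 2 * M φ) : 2 ≤ fb φ i ∧ fb φ i ≤ XX φ := by
  unfold fb
  split_ifs with h1
  · exact hi_bd φ _ (by omega)
  · have h2 := P_bd φ (i - M φ) (by omega)
    omega

private lemma st_bd (φ : F3) (s : ℕ) (h : s < 4 * M φ) : 2 ≤ st φ s ∧ st φ s ≤ XX φ := by
  unfold st
  split_ifs with h1 h2 h3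
  · exact lo_bd φ _ h1
  · have h4 := P_bd φ (s - 2 * M φ) (by omega)
    omega
  · have h4 := Q_bd φ ((s - 3 * M φ) / 3) (by omega)
    omega
  · have h4 := Q_bd φ ((s - 3 * M φ) / 3) (by omega)
    omega

private lemma hc_bd (φ : F3) (j : ℕ) (h : j < 4 * M φ) : 2 ≤ hc φ j ∧ hc φ j ≤ XX φ := by
  unfold hc
  split_ifs with h1
  · exact ta_bd φ _ h1
  · exact pa_bd φ _ (by omega)

private lemma hd_bd (φ : F3) (j : ℕ) (h : j < 4 * M φ) : 2 ≤ hd φ j ∧ hd φ j ≤ XX φ := by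
  unfold hd
  split_ifs with h1
  · exact pb_bd φ _ h1
  · exact fb_bd φ _ (by omega)

private lemma BB_eq (φ : F3) : BB φ = 2 * XX φ + 2 := rfl

private lemma XX_ge (φ : F3) : 4 ≤ XX φ := by
  unfold XX
  omega

theorem TaskSizes_proof : TaskSizes := by
  intro φ
  have hX := XX_ge φ
  have hB := BB_eq φ
  refine ⟨fun j hj => ?_, fun j hj => ?_, fun j hj => ?_⟩
  · have h1 := hc_bd φ j hj
    have h2 := hd_bd φ j hj
    omega
  · have h1 := pa_bd φ j hj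
    have h2 := pb_bd φ j hj
    omega
  · have h1 := st_bd φ j hj
    omega

end Pool.Agent.NPC.Q325SI
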