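import Pool.Agent.Q325.SI.Asm
import Pool.Agent.H671R2.PolyAuto

/-!
# Subgraph Isomorphism on `2P_5`-subgraph-free graphs
-/

set_option autoImplicit false

namespace Pool.Agent.NPC.Q325SI

/-- no two disjoint paths with five vertices -/
def TwoP5Free (G : Gr) : Prop := ¬ ∃ a b c d e a' b' c' d' e' : ℕ,
  [a, b, c, d, e, a', b', c', d', e'].Nodup ∧
  (Adj G a b ∧ Adj G b c ∧ Adj G c d ∧ Adj G d e) ∧
  (Adj G a' b' ∧ Adj G b' c' ∧ Adj G c' d' ∧ Adj G d' e')

/-- Subgraph Isomorphism on `2P_5`-subgraph-free graphs -/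
def SI55 (p : Gr × Gr) : Prop := TwoP5Free p.1 ∧ TwoP5Free p.2 ∧ Contains p.1 p.2

private def adjT (G : Gr) (u v : ℕ) : Bool :=
  decide (u ∈ G.1) && (decide (v ∈ G.1) && (!(decide (u = v)) &&
    (decide ((u, v) ∈ G.2) || decide ((v, u) ∈ G.2))))

private theorem adjT_iff (G : Gr) (u v : ℕ) : adjT G u v = true ↔ Adj G u v := by
  unfold adjT Adj
  simp only [Bool.and_eq_true, Bool.or_eq_true, decide_eq_true_eq, Bool.not_eq_true',
    decide_eq_false_iff_not, ne_eq]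

private def memT (p : Gr × Gr) (w : List (ℕ × ℕ)) : Bool :=
  (p.2.1.all fun u => w.any fun q => decide (q.1 = u)) &&
  ((w.all fun q => decide (q.2 ∈ p.1.1)) &&
  ((w.all fun q => w.all fun q' => !(decide (q.2 = q'.2)) || decide (q.1 = q'.1)) &&
  (w.all fun q => w.all fun q' => !(adjT p.2 q.1 q'.1) || adjT p.1 q.2 q'.2)))

private theorem memT_iff (p : Gr × Gr) (w : List (ℕ × ℕ)) : memT p w = true ↔
    (∀ u ∈ p.2.1, ∃ q ∈ w, q.1 = u) ∧ (∀ q ∈ w, q.2 ∈ p.1.1) ∧
    (∀ q ∈ w, ∀ q' ∈ w, q.2 = q'.2 → q.1 = q'.1) ∧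
    (∀ q ∈ w, ∀ q' ∈ w, Adj p.2 q.1 q'.1 → Adj p.1 q.2 q'.2) := by
  unfold memT
  simp only [Bool.and_eq_true, List.all_eq_true, List.any_eq_true, decide_eq_true_eq,
    Bool.or_eq_true, Bool.not_eq_true', decide_eq_false_iff_not]
  refine and_congr Iff.rfl (and_congr Iff.rfl (and_congr ?_ ?_))
  · exact forall_congr' fun q => imp_congr_right fun _ => forall_congr' fun q' =>
      imp_congr_right fun _ => by rw [imp_iff_not_or]
  · refine forall_congr' fun q => imp_congr_right fun _ => forall_congr' fun q' =>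
      imp_congr_right fun _ => ?_
    rw [imp_iff_not_or, ← adjT_iff, ← adjT_iff, Bool.not_eq_true]

private theorem contains_of (p : Gr × Gr) (w : List (ℕ × ℕ)) (h : memT p w = true) :
    Contains p.1 p.2 := by
  classical
  obtain ⟨h1, h2, h3, h4⟩ := (memT_iff p w).1 h
  have hex : ∀ u, ∃ y, u ∈ p.2.1 → (u, y) ∈ w := by
    intro u
    by_cases hu : u ∈ p.2.1
    · obtain ⟨q, hq, rfl⟩ := h1 u hu
      exact ⟨q.2, fun _ => hq⟩
    · exact ⟨0, fun h => absurd h hu⟩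
  choose φ hφ using hex
  refine ⟨φ, fun u hu => h2 _ (hφ u hu), fun u hu v hv huv => ?_, fun u v huv => ?_⟩
  · exact h3 _ (hφ u hu) _ (hφ v hv) huv
  · exact h4 _ (hφ u huv.1) _ (hφ v huv.2.1) huv

private theorem cert_of (p : Gr × Gr) (φ : ℕ → ℕ) (h1 : ∀ u ∈ p.2.1, φ u ∈ p.1.1)
    (h2 : ∀ u ∈ p.2.1, ∀ v ∈ p.2.1, φ u = φ v → u = v)
    (h3 : ∀ u v, Adj p.2 u v → Adj p.1 (φ u) (φ v)) :
    memT p (p.2.1.map fun u => (u, φ u)) = true := by
  rw [memT_iff]
  refine ⟨fun u hu => ⟨(u, φ u), List.mem_map.2 ⟨u, hu, rfl⟩, rfl⟩, ?_, ?_, ?_⟩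
  · intro q hq
    obtain ⟨u, hu, rfl⟩ := List.mem_map.1 hq
    exact h1 u hu
  · intro q hq q' hq' h
    obtain ⟨u, hu, rfl⟩ := List.mem_map.1 hq
    obtain ⟨v, hv, rfl⟩ := List.mem_map.1 hq'
    exact h2 u hu v hv h
  · intro q hq q' hq' h
    obtain ⟨u, hu, rfl⟩ := List.mem_map.1 hq
    obtain ⟨v, hv, rfl⟩ := List.mem_map.1 hq'
    exact h3 u v h

private theorem poly_adjT {α : Type} [TEnc α] {G : α → Gr} {u v : α → ℕ} (hG : Poly G)
    (hu : Poly u) (hv : Poly v) : Poly (fun a => adjT (G a) (u a) (v a)) := by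
  unfold adjT
  fun_prop

private theorem poly_memT : Poly (fun a : (Gr × Gr) × List (ℕ × ℕ) => memT a.1 a.2) := by
  unfold memT
  refine Poly.and ?_ (Poly.and ?_ (Poly.and ?_ ?_))
  · fun_prop
  · fun_prop
  · fun_prop
  · refine Poly.all (p := fun (a : (Gr × Gr) × List (ℕ × ℕ)) (q : ℕ × ℕ) =>
      a.2.all fun q' => !(adjT a.1.2 q.1 q'.1) || adjT a.1.1 q.2 q'.2) (by fun_prop) ?_
    refine Poly.all (p := fun (b : ((Gr × Gr) × List (ℕ × ℕ)) × (ℕ × ℕ)) (q' : ℕ × ℕ) =>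
      !(adjT b.1.1.2 b.2.1 q'.1) || adjT b.1.1.1 b.2.2 q'.2) (by fun_prop) ?_
    exact Poly.or (Poly.not (poly_adjT (by fun_prop) (by fun_prop) (by fun_prop)))
      (poly_adjT (by fun_prop) (by fun_prop) (by fun_prop))

private def tst (G : Gr) (a b c d e : ℕ) : Bool :=
  (adjT G a b && adjT G b c) && (adjT G c d && adjT G d e)

private theorem tst_poly {α : Type} [TEnc α] {G : α → Gr} {a b c d e : α → ℕ} (hG : Poly G)
    (ha : Poly a) (hb : Poly b) (hc : Poly c) (hd : Poly d) (he : Poly e) :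
    Poly (fun x => tst (G x) (a x) (b x) (c x) (d x) (e x)) :=
  Poly.and (Poly.and (poly_adjT hG ha hb) (poly_adjT hG hb hc))
    (Poly.and (poly_adjT hG hc hd) (poly_adjT hG hd he))

private def m1 (G : Gr) (a b c d : ℕ) : List (List ℕ) :=
  G.1.flatMap fun e => bif tst G a b c d e then [[a, b, c, d, e]] else []
private def m2 (G : Gr) (a b c : ℕ) : List (List ℕ) := G.1.flatMap fun d => m1 G a b c d
private def m3 (G : Gr) (a b : ℕ) : List (List ℕ) := G.1.flatMap fun c => m2 G a b c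
private def m4 (G : Gr) (a : ℕ) : List (List ℕ) := G.1.flatMap fun b => m3 G a b
private def m5 (G : Gr) : List (List ℕ) := G.1.flatMap fun a => m4 G a

private def ndg (l : List ℕ) : Bool :=
  l.zipIdx.all (fun p => l.zipIdx.all (fun q => decide (p.2 = q.2 ∨ ¬ p.1 = q.1)))

section poly
variable {α : Type} [TEnc α]

private theorem ndg_poly {l : α → List ℕ} (hl : Poly l) : Poly (fun a => ndg (l a)) := by
  refine Poly.all (p := fun a (p : ℕ × ℕ) =>
    (l a).zipIdx.all (fun q => decide (p.2 = q.2 ∨ ¬ p.1 = q.1))) (Poly.zipIdx hl) ?_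
  refine Poly.all (p := fun (x : α × (ℕ × ℕ)) (q : ℕ × ℕ) =>
    decide (x.2.2 = q.2 ∨ ¬ x.2.1 = q.1)) (Poly.zipIdx (hl.comp (Poly.fst Poly.id))) ?_
  exact Poly.decide_or (Poly.decide_eq (Poly.snd (Poly.snd (Poly.fst Poly.id)))
      (Poly.snd (Poly.snd Poly.id)))
    (Poly.decide_not (Poly.decide_eq (Poly.fst (Poly.snd (Poly.fst Poly.id)))
      (Poly.fst (Poly.snd Poly.id))))

private theorem ndg_iff (l : List ℕ) : ndg l = true ↔ l.Nodup := by
  simp only [ndg, List.all_eq_true, decide_eq_true_eq, Prod.forall,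
    List.mem_zipIdx_iff_getElem?]
  rw [List.nodup_iff_getElem?_ne_getElem?]
  constructor
  · intro h i j hij hj he
    have h1 : l[j]? = some l[j] := List.getElem?_eq_getElem hj
    rcases h l[j] i (by rw [he, h1]) l[j] j h1 with h2 | h2
    · omega
    · exact h2 rfl
  · intro h a i hi b j hj
    by_cases hij : i = j
    · exact Or.inl hij
    · refine Or.inr ?_
      rintro rfl
      rcases lt_or_gt_of_ne hij with h1 | h1
      · exact h i j h1 (List.getElem?_eq_some_iff.1 hj).1 (by rw [hi, hj])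
      · exact h j i h1 (List.getElem?_eq_some_iff.1 hi).1 (by rw [hi, hj])

private theorem m1_poly {G : α → Gr} {a b c d : α → ℕ} (hG : Poly G) (ha : Poly a)
    (hb : Poly b) (hc : Poly c) (hd : Poly d) :
    Poly (fun x => m1 (G x) (a x) (b x) (c x) (d x)) := by
  have f : ∀ {u : α → ℕ}, Poly u → Poly (fun p : α × ℕ => u p.1) := fun hu =>
    hu.comp (Poly.fst Poly.id)
  refine Poly.flatMap (F := fun x e => bif tst (G x) (a x) (b x) (c x) (d x) e then
    [[a x, b x, c x, d x, e]] else []) (Poly.fst hG) ?_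
  exact Poly.cond (tst_poly (hG.comp (Poly.fst Poly.id)) (f ha) (f hb) (f hc) (f hd)
    (Poly.snd Poly.id)) (Poly.cons (Poly.cons (f ha) (Poly.cons (f hb) (Poly.cons (f hc)
      (Poly.cons (f hd) (Poly.cons (Poly.snd Poly.id) (Poly.const [])))))) (Poly.const []))
    (Poly.const [])

private theorem m2_poly {G : α → Gr} {a b c : α → ℕ} (hG : Poly G) (ha : Poly a)
    (hb : Poly b) (hc : Poly c) : Poly (fun x => m2 (G x) (a x) (b x) (c x)) :=
  Poly.flatMap (F := fun x e => m1 (G x) (a x) (b x) (c x) e) (Poly.fst hG)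
    (m1_poly (hG.comp (Poly.fst Poly.id)) (ha.comp (Poly.fst Poly.id))
      (hb.comp (Poly.fst Poly.id)) (hc.comp (Poly.fst Poly.id)) (Poly.snd Poly.id))

private theorem m3_poly {G : α → Gr} {a b : α → ℕ} (hG : Poly G) (ha : Poly a)
    (hb : Poly b) : Poly (fun x => m3 (G x) (a x) (b x)) :=
  Poly.flatMap (F := fun x e => m2 (G x) (a x) (b x) e) (Poly.fst hG)
    (m2_poly (hG.comp (Poly.fst Poly.id)) (ha.comp (Poly.fst Poly.id))
      (hb.comp (Poly.fst Poly.id)) (Poly.snd Poly.id))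

private theorem m4_poly {G : α → Gr} {a : α → ℕ} (hG : Poly G) (ha : Poly a) :
    Poly (fun x => m4 (G x) (a x)) :=
  Poly.flatMap (F := fun x e => m3 (G x) (a x) e) (Poly.fst hG)
    (m3_poly (hG.comp (Poly.fst Poly.id)) (ha.comp (Poly.fst Poly.id)) (Poly.snd Poly.id))

private theorem m5_poly {G : α → Gr} (hG : Poly G) : Poly (fun x => m5 (G x)) :=
  Poly.flatMap (F := fun x e => m4 (G x) e) (Poly.fst hG)
    (m4_poly (hG.comp (Poly.fst Poly.id)) (Poly.snd Poly.id))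

end poly

private theorem m5_iff (G : Gr) (l : List ℕ) : l ∈ m5 G ↔ ∃ a b c d e : ℕ,
    l = [a, b, c, d, e] ∧ Adj G a b ∧ Adj G b c ∧ Adj G c d ∧ Adj G d e := by
  simp only [m5, m4, m3, m2, m1, List.mem_flatMap]
  constructor
  · rintro ⟨a, ha, b, hb, c, hc, d, hd, e, he, h⟩
    cases ht : tst G a b c d e
    · rw [ht] at h
      simp at h
    · rw [ht] at h
      simp only [cond_true, List.mem_singleton] at h
      unfold tst at ht
      simp only [Bool.and_eq_true, adjT_iff] at ht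
      exact ⟨a, b, c, d, e, h, ht.1.1, ht.1.2, ht.2.1, ht.2.2⟩
  · rintro ⟨a, b, c, d, e, rfl, h1, h2, h3, h4⟩
    have ht : tst G a b c d e = true := by
      unfold tst
      simp only [Bool.and_eq_true, adjT_iff]
      exact ⟨⟨h1, h2⟩, h3, h4⟩
    refine ⟨a, h1.1, b, h1.2.1, c, h2.2.1, d, h3.2.1, e, h4.2.1, ?_⟩
    rw [ht]
    simp

private def t10 (G : Gr) : Bool := (m5 G).any fun p => (m5 G).any fun q => ndg (p ++ q)

theorem poly55 : ∃ f : Gr → Bool, Poly f ∧ ∀ G, f G = true ↔ TwoP5Free G := by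
  refine ⟨fun G => !(t10 G), Poly.not ?_, fun G => ?_⟩
  · unfold t10
    refine Poly.any (p := fun (G : Gr) (p : List ℕ) => (m5 G).any fun q => ndg (p ++ q))
      (m5_poly Poly.id) ?_
    refine Poly.any (p := fun (x : Gr × List ℕ) (q : List ℕ) => ndg (x.2 ++ q))
      (m5_poly (Poly.fst Poly.id)) ?_
    exact ndg_poly (Poly.append (Poly.snd (Poly.fst Poly.id)) (Poly.snd Poly.id))
  · have key : t10 G = true ↔ ∃ a b c d e a' b' c' d' e' : ℕ,
        [a, b, c, d, e, a', b', c', d', e'].Nodup ∧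
        (Adj G a b ∧ Adj G b c ∧ Adj G c d ∧ Adj G d e) ∧
        (Adj G a' b' ∧ Adj G b' c' ∧ Adj G c' d' ∧ Adj G d' e') := by
      unfold t10
      simp only [List.any_eq_true, m5_iff, ndg_iff]
      constructor
      · rintro ⟨p, ⟨a, b, c, d, e, rfl, h1⟩, q, ⟨a', b', c', d', e', rfl, h2⟩, h3⟩
        exact ⟨a, b, c, d, e, a', b', c', d', e', h3, h1, h2⟩
      · rintro ⟨a, b, c, d, e, a', b', c', d', e', h3, h1, h2⟩
        exact ⟨_, ⟨a, b, c, d, e, rfl, h1⟩, _, ⟨a', b', c', d', e', rfl, h2⟩, h3⟩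
    unfold TwoP5Free
    rw [← key, Bool.not_eq_true', Bool.not_eq_true]

theorem mem55 (h : ∃ f : Gr → Bool, Poly f ∧ ∀ G, f G = true ↔ TwoP5Free G) : InNPP SI55 := by
  obtain ⟨f, hf, hf'⟩ := h
  refine inNPP_of (β := List (ℕ × ℕ)) (R := fun a : (Gr × Gr) × List (ℕ × ℕ) =>
    (f a.1.1 && f a.1.2) && memT a.1 a.2) ?_
    (Polynomial.X * (2 * Polynomial.X + 2) + 1) fun p => ?_
  · exact Poly.and (Poly.and (hf.comp (by fun_prop)) (hf.comp (by fun_prop))) poly_memT
  · have e : (Polynomial.X * (2 * Polynomial.X + 2) + 1 : Polynomial ℕ).eval (sz p) =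
        sz p * (2 * sz p + 2) + 1 := by simp
    rw [e]
    unfold SI55
    constructor
    · rintro ⟨h1, h2, φ, h3, h4, h5⟩
      refine ⟨p.2.1.map fun u => (u, φ u), ?_, ?_⟩
      · have hp : sz p = (sz p.1.1 + sz p.1.2 + 1) + (sz p.2.1 + sz p.2.2 + 1) + 1 := by
          rw [← sz_pair, ← sz_pair, ← sz_pair]
        have hb : ∀ a ∈ p.2.1.map (fun u => (u, φ u)), sz a ≤ 2 * sz p + 1 := by
          intro a ha
          obtain ⟨u, hu, rfl⟩ := List.mem_map.1 ha
          have h6 := sz_le_of_mem hu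
          have h7 := sz_le_of_mem (h3 u hu)
          rw [sz_pair]
          omega
        refine (sz_le_length_mul _ _ hb).trans ?_
        rw [List.length_map]
        have h8 := length_lt_sz p.2.1
        exact Nat.add_le_add_right (Nat.mul_le_mul (by omega) (by omega)) 1
      · simp only [Bool.and_eq_true]
        exact ⟨⟨(hf' _).2 h1, (hf' _).2 h2⟩, cert_of p φ h3 h4 h5⟩
    · rintro ⟨w, -, h⟩
      simp only [Bool.and_eq_true] at h
      exact ⟨(hf' _).1 h.1.1, (hf' _).1 h.1.2, contains_of p w h.2⟩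


theorem twoP5Free_of {G : Gr} (h : P5Free G) : TwoP5Free G := by
  rintro ⟨a, b, c, d, e, a', b', c', d', e', h1, h2, -⟩
  refine h ⟨a, b, c, d, e, ?_, h2⟩
  have h3 : ([a, b, c, d, e] ++ [a', b', c', d', e']).Nodup := h1
  exact (List.nodup_append.1 h3).1

theorem final55 (hAdj : TaskAdj) (hBwd : TaskBwdG) (hFwd : TaskFwdG) (hSz : TaskSizes)
    (hBox : TaskBox) (hNumB : TaskNumB) (hNumF : TaskNumF) (hHall : TaskHall) (hP5 : TaskP5)
    (hPoly : TaskPoly) : InNPP SI55 ∧ NPHardP SI55 := by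
  refine ⟨mem55 poly55, (hardI_SAT3.trans hPoly fun φ => ?_).toNPHardP⟩
  constructor
  · intro h
    obtain ⟨h1, h2, h3⟩ := (red_iff hAdj hBwd hFwd hSz hBox hNumB hNumF hHall hP5 φ).1 h
    exact ⟨twoP5Free_of h1, twoP5Free_of h2, h3⟩
  · rintro ⟨-, -, h⟩
    exact sat_of_contains hAdj hBwd hSz hBox hNumB φ h

end Pool.Agent.NPC.Q325SI
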